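import Pool.Agent.R262.OPA.Basic

/-!
# Optimal approximants: existence, and stability of approximate minimisers
-/

open Filter Topology
open scoped InnerProductSpace

namespace Pool.Agent.R262.OPA

/-- `q` is the optimal approximant of degree `≤ n` (orthogonality relations) -/
def OptO (x : H) (n : ℕ) (q : Polynomial ℂ) : Prop :=
  q.natDegree ≤ n ∧ ∀ r : Polynomial ℂ, r.natDegree ≤ n → ⟪act r x, act q x - e⟫_ℂ = 0

/-- the linear map `p ↦ p x` -/
noncomputable def actL (x : H) : Polynomial ℂ →ₗ[ℂ] H where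
  toFun := fun p => act p x
  map_add' := fun p q => act_add p q x
  map_smul' := by
    intro c p
    simp [act]

theorem exists_optO (x : H) (n : ℕ) : ∃ q, OptO x n q := by
  classical
  set K : Submodule ℂ H := (Polynomial.degreeLT ℂ (n + 1)).map (actL x) with hK
  have : Module.Finite ℂ (Polynomial.degreeLT ℂ (n + 1)) :=
    Module.Finite.equiv (Polynomial.degreeLTEquiv ℂ (n + 1)).symm
  have : FiniteDimensional ℂ K := by
    rw [hK]; infer_instance
  obtain ⟨v, hv, hmin⟩ := Submodule.exists_norm_eq_iInf_of_complete_subspace K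
    (Submodule.complete_of_finiteDimensional K) e
  have horth := (Submodule.norm_eq_iInf_iff_inner_eq_zero (𝕜 := ℂ) (K := K) (u := e) hv).1 hmin
  obtain ⟨q, hq, hqv⟩ := Submodule.mem_map.1 hv
  have hdeg : ∀ r : Polynomial ℂ, r.natDegree ≤ n ↔ r ∈ Polynomial.degreeLT ℂ (n + 1) := by
    intro r
    rw [Polynomial.mem_degreeLT]
    rcases eq_or_ne r 0 with h | h
    · subst h; simp
    · rw [Polynomial.degree_eq_natDegree h]
      constructor
      · intro h1
        exact_mod_cast Nat.lt_succ_of_le h1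
      · intro h1
        exact Nat.le_of_lt_succ (by exact_mod_cast h1)
  refine ⟨q, (hdeg q).2 hq, fun r hr => ?_⟩
  have hq' : act q x = v := hqv
  have h1 : act r x ∈ K := Submodule.mem_map.2 ⟨r, (hdeg r).1 hr, rfl⟩
  have h2 := horth _ h1
  have h3 : act q x - e = -(e - v) := by rw [hq']; abel
  rw [h3, inner_neg_right, ← inner_conj_symm, h2]
  simp

theorem OptO.le {x : H} {n : ℕ} {q : Polynomial ℂ} (h : OptO x n q) (p : Polynomial ℂ)
    (hp : p.natDegree ≤ n) : ‖act q x - e‖ ≤ ‖act p x - e‖ := by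
  have hr : (p - q).natDegree ≤ n := (Polynomial.natDegree_sub_le p q).trans (max_le hp h.1)
  have h0 := h.2 _ hr
  have h1 : act p x - e = act (p - q) x + (act q x - e) := by rw [act_sub]; abel
  have h2 : ‖act p x - e‖ ^ 2 = ‖act (p - q) x‖ ^ 2 + ‖act q x - e‖ ^ 2 := by
    rw [h1, sq, sq, sq]
    exact norm_add_sq_eq_norm_sq_add_norm_sq_of_inner_eq_zero _ _ h0
  have h3 : ‖act q x - e‖ ^ 2 ≤ ‖act p x - e‖ ^ 2 := by
    rw [h2]; nlinarith [sq_nonneg ‖act (p - q) x‖]
  exact le_of_sq_le_sq h3 (norm_nonneg _)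

theorem OptO.lt {x : H} {n : ℕ} {q : Polynomial ℂ} (h : OptO x n q) (hx : x ≠ 0)
    (p : Polynomial ℂ) (hp : p.natDegree ≤ n) (hpq : p ≠ q) : ‖act q x - e‖ < ‖act p x - e‖ := by
  have hr : (p - q).natDegree ≤ n := (Polynomial.natDegree_sub_le p q).trans (max_le hp h.1)
  have h0 := h.2 _ hr
  have h1 : act p x - e = act (p - q) x + (act q x - e) := by rw [act_sub]; abel
  have h2 : ‖act p x - e‖ ^ 2 = ‖act (p - q) x‖ ^ 2 + ‖act q x - e‖ ^ 2 := by
    rw [h1, sq, sq, sq]
    exact norm_add_sq_eq_norm_sq_add_norm_sq_of_inner_eq_zero _ _ h0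
  have h4 : act (p - q) x ≠ 0 := by
    intro h5
    have h6 : ((p - q : Polynomial ℂ) : PowerSeries ℂ) * ser x = 0 := by
      rw [← ser_act, h5]
      ext k; simp
    rcases mul_eq_zero.1 h6 with h7 | h7
    · exact sub_ne_zero.2 hpq (Polynomial.coe_eq_zero_iff.1 h7)
    · apply hx
      apply ser_injective
      rw [h7]
      ext k; simp
  have h3 : ‖act q x - e‖ ^ 2 < ‖act p x - e‖ ^ 2 := by
    rw [h2]
    have : 0 < ‖act (p - q) x‖ := norm_pos_iff.2 h4
    nlinarith
  exact lt_of_pow_lt_pow_left₀ 2 (norm_nonneg _) h3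

/-- stability of approximate minimisers -/
theorem pert {x : H} {n : ℕ} {p : Polynomial ℂ} (hp : p.natDegree ≤ n) {κ η τ : ℝ} (hκ : 0 < κ)
    (hη : 0 ≤ η) (ha : ∀ r : Polynomial ℂ, r.natDegree ≤ n → κ * l1 r ≤ ‖act r x‖)
    (hb : ∀ r : Polynomial ℂ, r.natDegree ≤ n → ‖⟪act r x, act p x - e⟫_ℂ‖ ≤ η * ‖act r x‖)
    (hlt : η < κ * τ) :
    ∃ δ > 0, ∀ y : H, ‖y - x‖ < δ → ∀ q, OptO y n q → l1 (q - p) < τ := by
  set A := ‖act p x - e‖ with hA
  set B := l1 p with hB
  have hA0 : 0 ≤ A := norm_nonneg _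
  have hB0 : 0 ≤ B := l1_nonneg _
  -- continuity of the bound
  have hcont : Tendsto (fun D : ℝ => (η + D * (η + A) / (κ - D) + B * D) / (κ - D)) (𝓝 0)
      (𝓝 ((η + 0 * (η + A) / (κ - 0) + B * 0) / (κ - 0))) := by
    apply ContinuousAt.tendsto
    have h1 : κ - 0 ≠ 0 := by simpa using hκ.ne'
    apply ContinuousAt.div _ (by fun_prop) h1
    apply ContinuousAt.add _ (by fun_prop)
    apply ContinuousAt.add (by fun_prop)
    exact ContinuousAt.div (by fun_prop) (by fun_prop) h1
  have hval : (η + 0 * (η + A) / (κ - 0) + B * 0) / (κ - 0) < τ := by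
    simp only [zero_mul, zero_div, add_zero, mul_zero, sub_zero]
    rw [div_lt_iff₀ hκ]; linarith
  have hev := (hcont.eventually (gt_mem_nhds hval)).and (gt_mem_nhds hκ)
  obtain ⟨δ, hδ, hball⟩ := Metric.eventually_nhds_iff.1 hev
  refine ⟨δ, hδ, fun y hy q hq => ?_⟩
  set D := ‖y - x‖ with hD
  have hD0 : 0 ≤ D := norm_nonneg _
  have hDd : dist D 0 < δ := by rw [Real.dist_eq, sub_zero, abs_of_nonneg hD0]; exact hy
  obtain ⟨hbound, hDκ⟩ := hball hDd
  set r := q - p with hr
  have hrd : r.natDegree ≤ n := (Polynomial.natDegree_sub_le q p).trans (max_le hq.1 hp)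
  set R := l1 r with hR
  have hR0 : 0 ≤ R := l1_nonneg _
  set t := ‖act r y‖ with ht
  have ht0 : 0 ≤ t := norm_nonneg _
  -- norm comparisons
  have hdiff : ‖act r (y - x)‖ ≤ R * D := norm_act_le r _
  have hrx : act r y = act r x + act r (y - x) := by rw [map_sub]; abel
  have h1 : ‖act r x‖ ≤ t + R * D := by
    have : act r x = act r y - act r (y - x) := by rw [hrx]; abel
    rw [this]
    refine (norm_sub_le _ _).trans ?_
    gcongr
  have h2 : κ * R ≤ t + R * D := (ha r hrd).trans h1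
  have hκD : 0 < κ - D := by linarith
  have h3 : R ≤ t / (κ - D) := by
    rw [le_div_iff₀ hκD]; nlinarith
  -- the quadratic form
  have h4 : (t : ℝ) ^ 2 ≤ η * (t + R * D) + R * D * A + t * (B * D) := by
    have horth := hq.2 r hrd
    have e1 : act p y - e = (act p x - e) + act p (y - x) := by rw [map_sub]; abel
    have e2 : act q y - e = act r y + (act p y - e) := by rw [hr, act_sub]; abel
    have e3 : ⟪act r y, act r y⟫_ℂ = -⟪act r y, act p y - e⟫_ℂ := by
      rw [e2, inner_add_right] at horth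
      exact eq_neg_of_add_eq_zero_left horth
    have e4 : (t : ℝ) ^ 2 = ‖⟪act r y, act p y - e⟫_ℂ‖ := by
      rw [← norm_neg, ← e3, inner_self_eq_norm_sq_to_K]
      simp [ht]
    rw [e4]
    have e5 : ⟪act r y, act p y - e⟫_ℂ = ⟪act r x, act p x - e⟫_ℂ
        + ⟪act r (y - x), act p x - e⟫_ℂ + ⟪act r y, act p (y - x)⟫_ℂ := by
      rw [e1, inner_add_right]
      congr 1
      rw [← inner_add_left, ← hrx]
    rw [e5]
    refine (norm_add₃_le).trans ?_
    have f1 : ‖⟪act r x, act p x - e⟫_ℂ‖ ≤ η * (t + R * D) :=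
      (hb r hrd).trans (mul_le_mul_of_nonneg_left h1 hη)
    have f2 : ‖⟪act r (y - x), act p x - e⟫_ℂ‖ ≤ R * D * A :=
      (norm_inner_le_norm _ _).trans (mul_le_mul_of_nonneg_right hdiff hA0)
    have f3 : ‖⟪act r y, act p (y - x)⟫_ℂ‖ ≤ t * (B * D) :=
      (norm_inner_le_norm _ _).trans (mul_le_mul_of_nonneg_left (norm_act_le p _) ht0)
    linarith
  -- conclusion
  have h5 : t ≤ η + D * (η + A) / (κ - D) + B * D := by
    by_contra hcon
    rw [not_le] at hcon
    have ht1 : 0 < t := by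
      refine lt_of_le_of_lt ?_ hcon
      have : 0 ≤ D * (η + A) / (κ - D) := by positivity
      positivity
    have h6 : t ^ 2 ≤ t * (η + D * (η + A) / (κ - D) + B * D) := by
      have h7 : R * (D * (η + A)) ≤ t / (κ - D) * (D * (η + A)) :=
        mul_le_mul_of_nonneg_right h3 (by positivity)
      have h8 : t / (κ - D) * (D * (η + A)) = t * (D * (η + A) / (κ - D)) := by ring
      nlinarith
    have h9 : t * (η + D * (η + A) / (κ - D) + B * D) < t * t := mul_lt_mul_of_pos_left hcon ht1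
    nlinarith
  calc l1 (q - p) = R := rfl
    _ ≤ t / (κ - D) := h3
    _ ≤ (η + D * (η + A) / (κ - D) + B * D) / (κ - D) := by gcongr
    _ < τ := hbound

end Pool.Agent.R262.OPA
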