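import Pool.Agent.R262.OPA.Basic

/-!
# Location of a zero of a polynomial close to `P (1 + c z^N)`
-/

open Filter Topology Polynomial
open scoped InnerProductSpace

namespace Pool.Agent.R262.OPA

/-- a zero near a point where the polynomial is small and its derivative is large -/
theorem exists_root_near {q : Polynomial ℂ} {n : ℕ} (hq : q.natDegree ≤ n) {z : ℂ} {a b : ℝ}
    (ha : ‖q.eval z‖ ≤ a) (hb : b ≤ ‖q.derivative.eval z‖) (hb0 : 0 < b) :
    ∃ w, q.eval w = 0 ∧ ‖w - z‖ * b ≤ n * a := by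
  classical
  by_cases hz : q.eval z = 0
  · refine ⟨z, hz, ?_⟩
    have : 0 ≤ a := (norm_nonneg _).trans ha
    simp only [sub_self, norm_zero, zero_mul]
    positivity
  have hq0 : q ≠ 0 := by rintro rfl; simp at hz
  have hid := (IsAlgClosed.splits q).eval_derivative_div_eval_of_ne_zero hz
  have hne : q.roots ≠ 0 := by
    intro h0
    rw [h0] at hid
    simp only [Multiset.map_zero, Multiset.sum_zero, div_eq_zero_iff] at hid
    rcases hid with h | h
    · rw [h, norm_zero] at hb; linarith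
    · exact hz h
  have hne' : q.roots.toFinset.Nonempty := by
    rw [Multiset.toFinset_nonempty]; exact hne
  obtain ⟨w, hw, hmin⟩ := Finset.exists_min_image q.roots.toFinset (fun w => ‖z - w‖) hne'
  have hwr : q.eval w = 0 := by
    have := Multiset.mem_toFinset.1 hw
    exact (Polynomial.mem_roots hq0).1 this
  have hzw : 0 < ‖z - w‖ := by
    rw [norm_pos_iff, sub_ne_zero]
    rintro rfl
    exact hz hwr
  refine ⟨w, hwr, ?_⟩
  have h1 : ‖q.derivative.eval z / q.eval z‖ ≤ n * (1 / ‖z - w‖) := by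
    rw [hid]
    refine (norm_multiset_sum_le _).trans ?_
    have h2 : ∀ x ∈ (Multiset.map (fun x : ℂ => ‖x‖) (Multiset.map (fun w => 1 / (z - w)) q.roots)),
        x ≤ 1 / ‖z - w‖ := by
      intro x hx
      simp only [Multiset.map_map, Function.comp, Multiset.mem_map] at hx
      obtain ⟨v, hv, rfl⟩ := hx
      rw [norm_div, norm_one]
      exact one_div_le_one_div_of_le hzw (hmin v (Multiset.mem_toFinset.2 hv))
    refine (Multiset.sum_le_card_nsmul _ _ h2).trans ?_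
    rw [nsmul_eq_mul]
    have h3 : (Multiset.card (Multiset.map (fun x : ℂ => ‖x‖)
        (Multiset.map (fun w => 1 / (z - w)) q.roots)) : ℝ) ≤ n := by
      rw [Multiset.card_map, Multiset.card_map]
      exact_mod_cast (Polynomial.card_roots' q).trans hq
    gcongr
  have hqz : 0 < ‖q.eval z‖ := norm_pos_iff.2 hz
  rw [norm_div, div_le_iff₀ hqz] at h1
  have h4 : b ≤ n * (1 / ‖z - w‖) * a :=
    hb.trans (h1.trans (mul_le_mul_of_nonneg_left ha (by positivity)))
  rw [norm_sub_rev]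
  calc ‖z - w‖ * b ≤ ‖z - w‖ * (n * (1 / ‖z - w‖) * a) := by gcongr
    _ = n * a := by field_simp

/-- evaluation bound -/
lemma norm_eval_le_l1 {r : Polynomial ℂ} {n : ℕ} (hr : r.natDegree ≤ n) {z : ℂ} {E : ℝ}
    (hE : ∀ k ≤ n, ‖z‖ ^ k ≤ E) : ‖r.eval z‖ ≤ l1 r * E := by
  rw [Polynomial.eval_eq_sum_range' (Nat.lt_succ_of_le hr), l1_eq hr, Finset.sum_mul]
  refine (norm_sum_le _ _).trans (Finset.sum_le_sum fun k hk => ?_)
  rw [norm_mul, norm_pow]
  have := hE k (Nat.lt_succ_iff.1 (Finset.mem_range.1 hk))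
  gcongr

lemma norm_eval_derivative_le_l1 {r : Polynomial ℂ} {n : ℕ} (hr : r.natDegree ≤ n) {z : ℂ} {E : ℝ}
    (hE : ∀ k ≤ n, ‖z‖ ^ k ≤ E) : ‖r.derivative.eval z‖ ≤ n * (l1 r * E) := by
  rw [Polynomial.derivative_eval, Polynomial.sum_over_range' _ (by simp) (n + 1)
    (Nat.lt_succ_of_le hr), l1_eq hr, Finset.sum_mul, Finset.mul_sum]
  refine (norm_sum_le _ _).trans (Finset.sum_le_sum fun k hk => ?_)
  have hk' := Nat.lt_succ_iff.1 (Finset.mem_range.1 hk)
  rw [norm_mul, norm_mul, norm_pow, Complex.norm_natCast]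
  have h1 : ‖z‖ ^ (k - 1) ≤ E := hE (k - 1) (by omega)
  have h2 : (k : ℝ) ≤ n := by exact_mod_cast hk'
  have h3 : 0 ≤ E := by
    have := hE 0 (Nat.zero_le _)
    rw [pow_zero] at this; linarith
  calc ‖r.coeff k‖ * k * ‖z‖ ^ (k - 1) ≤ ‖r.coeff k‖ * n * E := by gcongr
    _ = n * (‖r.coeff k‖ * E) := by ring

/-- directions close to `θ` -/
lemma direction {θ θ₁ θ₂ : ℝ} (h1 : θ₁ < θ) (h2 : θ < θ₂) :
    ∃ ε > 0, ∀ v : ℂ, ‖v - Complex.exp (θ * Complex.I)‖ < ε →
      ∃ ψ, θ₁ < ψ ∧ ψ < θ₂ ∧ 0 < ‖v‖ ∧ ‖v‖ < 2 ∧ v = ‖v‖ * Complex.exp (ψ * Complex.I) := by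
  have hc : ContinuousAt (fun v : ℂ => θ + Complex.arg (v * Complex.exp (-(θ * Complex.I))))
      (Complex.exp (θ * Complex.I)) := by
    apply ContinuousAt.add continuousAt_const
    apply ContinuousAt.comp (g := Complex.arg)
    · rw [← Complex.exp_add, add_neg_cancel, Complex.exp_zero]
      exact Complex.continuousAt_arg (by simp)
    · fun_prop
  have hv : θ + Complex.arg (Complex.exp (θ * Complex.I) * Complex.exp (-(θ * Complex.I))) = θ := by
    rw [← Complex.exp_add, add_neg_cancel, Complex.exp_zero]; simp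
  have hI : Set.Ioo θ₁ θ₂ ∈ 𝓝 (θ + Complex.arg (Complex.exp (θ * Complex.I) *
      Complex.exp (-(θ * Complex.I)))) := by
    rw [hv]; exact Ioo_mem_nhds h1 h2
  obtain ⟨ε, hε, hball⟩ := Metric.mem_nhds_iff.1 (hc hI)
  refine ⟨min ε 1, lt_min hε one_pos, fun v hv => ?_⟩
  have h3 : v ∈ Metric.ball (Complex.exp (θ * Complex.I)) ε := by
    rw [mem_ball_iff_norm]; exact hv.trans_le (min_le_left _ _)
  have h4 := hball h3
  have hn : ‖Complex.exp (θ * Complex.I)‖ = 1 := Complex.norm_exp_ofReal_mul_I θ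
  have h5 := hv.trans_le (min_le_right _ _)
  have h6 : 0 < ‖v‖ := by
    have := norm_sub_norm_le (Complex.exp (θ * Complex.I)) v
    rw [hn, norm_sub_rev] at this
    linarith
  have h7 : ‖v‖ < 2 := by
    have := norm_sub_norm_le v (Complex.exp (θ * Complex.I))
    rw [hn] at this
    linarith
  refine ⟨_, h4.1, h4.2, h6, h7, ?_⟩
  have h8 := Complex.norm_mul_exp_arg_mul_I (v * Complex.exp (-(θ * Complex.I)))
  have h9 : ‖v * Complex.exp (-(θ * Complex.I))‖ = ‖v‖ := by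
    rw [norm_mul]
    have : -((θ : ℂ) * Complex.I) = ((-θ : ℝ) : ℂ) * Complex.I := by push_cast; ring
    rw [this, Complex.norm_exp_ofReal_mul_I, mul_one]
  rw [h9] at h8
  push_cast
  rw [add_mul, Complex.exp_add]
  calc v = (v * Complex.exp (-(θ * Complex.I))) * Complex.exp (θ * Complex.I) := by
        rw [mul_assoc, ← Complex.exp_add, neg_add_cancel, Complex.exp_zero, mul_one]
    _ = (‖v‖ * Complex.exp (↑(v * Complex.exp (-(θ * Complex.I))).arg * Complex.I)) *
        Complex.exp (θ * Complex.I) := by rw [h8]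
    _ = _ := by ring

theorem zero_loc (P : Polynomial ℂ) (hP : P.eval 1 ≠ 0) {d : ℕ} (hd : P.natDegree ≤ d)
    {θ θ₁ θ₂ r₀ ρmin ρmax : ℝ} (h1 : θ₁ < θ) (h2 : θ < θ₂) (hr₀ : 0 < r₀) (hmin : 0 < ρmin) :
    ∀ᶠ N : ℕ in atTop, ∀ ρ ∈ Set.Icc ρmin ρmax, ∀ c : ℂ,
      c * Complex.exp (ρ * Complex.exp (θ * Complex.I)) = -1 →
      ∀ q : Polynomial ℂ, q.natDegree ≤ N + d → l1 (q - P * (1 + C c * X ^ N)) ≤ 1 / (N : ℝ) ^ 2 →
      ∃ r ψ : ℝ, 0 < r ∧ r < r₀ ∧ θ₁ < ψ ∧ ψ < θ₂ ∧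
        q.eval (1 + r * Complex.exp (ψ * Complex.I)) = 0 := by
  obtain ⟨ε, hε, hdir⟩ := direction h1 h2
  have hP1 : 0 < ‖P.eval 1‖ := norm_pos_iff.2 hP
  -- continuity of `P` at `1`
  have hPc : ∃ εP > 0, ∀ z : ℂ, ‖z - 1‖ < εP → ‖P.eval 1‖ / 2 ≤ ‖P.eval z‖ := by
    have hc : ContinuousAt (fun z : ℂ => ‖P.eval z‖) 1 := by fun_prop
    have := hc.eventually (lt_mem_nhds (show ‖P.eval 1‖ / 2 < ‖P.eval 1‖ by linarith))
    obtain ⟨εP, hεP, hb⟩ := Metric.eventually_nhds_iff.1 this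
    exact ⟨εP, hεP, fun z hz => (hb (by rwa [dist_eq_norm])).le⟩
  obtain ⟨εP, hεP, hPc⟩ := hPc
  set R := max ρmax ρmin with hR
  have hRpos : 0 < R := lt_of_lt_of_le hmin (le_max_right _ _)
  set E := Real.exp (2 * R) with hE
  have hE1 : 1 ≤ E := Real.one_le_exp (by positivity)
  set K := 8 * E ^ 2 / ‖P.eval 1‖ with hK
  have hK0 : 0 < K := by positivity
  have hN : Tendsto (fun N : ℕ => (N : ℝ)) atTop atTop := tendsto_natCast_atTop_atTop
  filter_upwards [eventually_ge_atTop (max d 1), hN.eventually_ge_atTop R,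
    hN.eventually_gt_atTop (2 * R / εP), hN.eventually_ge_atTop (8 * E ^ 2 / ‖P.eval 1‖),
    hN.eventually_gt_atTop ((K / ρmin + R) / ε), hN.eventually_gt_atTop (2 * R / r₀)]
    with N hNd hNR hNP hNE hNε hNr
  intro ρ hρ c hc q hq hl
  have hN1 : 1 ≤ N := (le_max_right _ _).trans hNd
  have hNd' : d ≤ N := (le_max_left _ _).trans hNd
  have hNpos : (0 : ℝ) < N := by exact_mod_cast hN1
  have hρ0 : 0 < ρ := lt_of_lt_of_le hmin hρ.1
  have hρR : ρ ≤ R := hρ.2.trans (le_max_left _ _)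
  set u : ℂ := ρ * Complex.exp (θ * Complex.I) / N with hu
  have hun : ‖u‖ = ρ / N := by
    rw [hu, norm_div, norm_mul, Complex.norm_exp_ofReal_mul_I, Complex.norm_natCast, mul_one,
      Complex.norm_real, Real.norm_of_nonneg hρ0.le]
  have hu1 : ‖u‖ ≤ 1 := by
    rw [hun, div_le_one hNpos]; exact hρR.trans hNR
  set z : ℂ := Complex.exp u with hz
  have hzN : z ^ N = Complex.exp (ρ * Complex.exp (θ * Complex.I)) := by
    rw [hz, ← Complex.exp_nat_mul, hu]
    congr 1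
    have : (N : ℂ) ≠ 0 := by exact_mod_cast hNpos.ne'
    field_simp
  have hz0 : z ≠ 0 := Complex.exp_ne_zero _
  have hzE : ∀ k ≤ N + d, ‖z‖ ^ k ≤ E := by
    intro k hk
    have h3 : ‖z‖ ≤ Real.exp (R / N) := by
      rw [hz, Complex.norm_exp]
      apply Real.exp_le_exp.2
      calc u.re ≤ ‖u‖ := Complex.re_le_norm u
        _ = ρ / N := hun
        _ ≤ R / N := by gcongr
    calc ‖z‖ ^ k ≤ Real.exp (R / N) ^ k := by gcongr
      _ = Real.exp (k * (R / N)) := (Real.exp_nat_mul _ _).symm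
      _ ≤ E := by
        apply Real.exp_le_exp.2
        have : (k : ℝ) ≤ 2 * N := by
          have : k ≤ 2 * N := by omega
          exact_mod_cast this
        calc (k : ℝ) * (R / N) ≤ 2 * N * (R / N) := by gcongr
          _ = 2 * R := by field_simp
  set p : Polynomial ℂ := P * (1 + C c * X ^ N) with hp
  have hpd : p.natDegree ≤ N + d := by
    rw [hp]
    refine (Polynomial.natDegree_mul_le).trans ?_
    have : (1 + C c * X ^ N : Polynomial ℂ).natDegree ≤ N := by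
      refine (Polynomial.natDegree_add_le _ _).trans (max_le (by simp) ?_)
      exact Polynomial.natDegree_C_mul_X_pow_le c N
    omega
  have hrd : (q - p).natDegree ≤ N + d := (Polynomial.natDegree_sub_le q p).trans (max_le hq hpd)
  have hroot : 1 + c * z ^ N = 0 := by rw [hzN, hc]; ring
  have hpz : p.eval z = 0 := by
    rw [hp]; simp [hroot]
  have hpd' : p.derivative.eval z = -(P.eval z * N / z) := by
    rw [hp]
    simp only [derivative_mul, derivative_add, derivative_one, derivative_C, derivative_X_pow,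
      eval_add, eval_mul, eval_one, eval_C, eval_pow, eval_X, zero_add, zero_mul,
      hroot, mul_zero]
    have h3 : c * ((N : ℂ) * z ^ (N - 1)) = -(N / z) := by
      have h4 : z ^ (N - 1) * z = z ^ N := by
        rw [← pow_succ]; congr 1; omega
      have h5 : c * z ^ N = -1 := eq_neg_of_add_eq_zero_right hroot
      rw [eq_neg_iff_add_eq_zero]
      field_simp
      rw [mul_assoc c, h4, h5]
      ring
    rw [h3]
    ring
  have hzn : ‖z‖ ≤ E := by
    have := hzE 1 (by omega)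
    rwa [pow_one] at this
  have hzpos : 0 < ‖z‖ := norm_pos_iff.2 hz0
  have hz1 : ‖z - 1‖ < εP := by
    have h3 : ‖z - 1‖ ≤ 2 * ‖u‖ := Complex.norm_exp_sub_one_le hu1
    rw [hun] at h3
    refine lt_of_le_of_lt h3 ?_
    rw [div_lt_iff₀ hεP] at hNP
    rw [← mul_div_assoc, div_lt_iff₀ hNpos]
    nlinarith
  have hPz := hPc z hz1
  -- lower bound for the derivative of `p`
  have hpd2 : ‖P.eval 1‖ * N / (2 * E) ≤ ‖p.derivative.eval z‖ := by
    rw [hpd', norm_neg, norm_div, norm_mul, Complex.norm_natCast, div_le_div_iff₀ (by positivity) hzpos]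
    have h3 : ‖P.eval 1‖ * N * ‖z‖ ≤ ‖P.eval 1‖ * N * E := by gcongr
    have h4 : ‖P.eval 1‖ / 2 * N * (2 * E) ≤ ‖P.eval z‖ * N * (2 * E) := by gcongr
    nlinarith
  set r := q - p with hr
  have hqr : q = p + r := by rw [hr]; ring
  have hNn : ((N + d : ℕ) : ℝ) ≤ 2 * N := by
    have : N + d ≤ 2 * N := by omega
    exact_mod_cast this
  have hl0 := l1_nonneg r
  have hqz : ‖q.eval z‖ ≤ 1 / (N : ℝ) ^ 2 * E := by
    rw [hqr, eval_add, hpz, zero_add]
    exact (norm_eval_le_l1 hrd hzE).trans (by gcongr)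
  have hrz : ‖r.derivative.eval z‖ ≤ 2 * E / N := by
    refine (norm_eval_derivative_le_l1 hrd hzE).trans ?_
    calc ((N + d : ℕ) : ℝ) * (l1 r * E) ≤ 2 * N * (1 / (N : ℝ) ^ 2 * E) := by gcongr
      _ = 2 * E / N := by field_simp
  have hqd : ‖P.eval 1‖ * N / (4 * E) ≤ ‖q.derivative.eval z‖ := by
    have h3 : q.derivative.eval z = p.derivative.eval z + r.derivative.eval z := by
      rw [hqr, derivative_add, eval_add]
    have h4 : ‖p.derivative.eval z‖ - ‖r.derivative.eval z‖ ≤ ‖q.derivative.eval z‖ := by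
      rw [h3]; exact norm_sub_le_norm_add _ _
    have h5 : 2 * E / N ≤ ‖P.eval 1‖ * N / (4 * E) := by
      rw [div_le_div_iff₀ hNpos (by positivity)]
      rw [div_le_iff₀ hP1] at hNE
      have h6 : (1 : ℝ) ≤ N := by exact_mod_cast hN1
      have h7 : 8 * E ^ 2 ≤ (N * ‖P.eval 1‖) * N := by
        calc 8 * E ^ 2 ≤ N * ‖P.eval 1‖ := hNE
          _ ≤ (N * ‖P.eval 1‖) * N := le_mul_of_one_le_right (by positivity) h6
      linarith
    have h6 : ‖P.eval 1‖ * N / (2 * E) = ‖P.eval 1‖ * N / (4 * E) + ‖P.eval 1‖ * N / (4 * E) := by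
      field_simp; ring
    linarith
  obtain ⟨w, hw, hwz⟩ := exists_root_near hq hqz hqd (by positivity)
  have hwz' : ‖w - z‖ ≤ K / (N : ℝ) ^ 2 := by
    have h3 : ‖w - z‖ * (‖P.eval 1‖ * N / (4 * E)) ≤ 2 * N * (1 / (N : ℝ) ^ 2 * E) :=
      hwz.trans (by gcongr)
    have h4 : ‖w - z‖ ≤ 2 * N * (1 / (N : ℝ) ^ 2 * E) / (‖P.eval 1‖ * N / (4 * E)) := by
      rw [le_div_iff₀ (by positivity)]; exact h3
    refine h4.trans (le_of_eq ?_)
    rw [hK]
    field_simp
    ring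
  -- the direction
  set v : ℂ := (w - 1) * (N / ρ : ℝ) with hv
  have hzu : ‖z - 1 - u‖ ≤ (ρ / N) ^ 2 := by
    have := Complex.norm_exp_sub_one_sub_id_le hu1
    rwa [hun] at this
  have hve : ‖v - Complex.exp (θ * Complex.I)‖ < ε := by
    have h3 : v - Complex.exp (θ * Complex.I) = ((w - z) + (z - 1 - u)) * (N / ρ : ℝ) := by
      have h4 : u * (N / ρ : ℝ) = Complex.exp (θ * Complex.I) := by
        rw [hu]
        have : (N : ℂ) ≠ 0 := by exact_mod_cast hNpos.ne'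
        have : (ρ : ℂ) ≠ 0 := by exact_mod_cast hρ0.ne'
        push_cast
        field_simp
      rw [hv, ← h4]; ring
    rw [h3, norm_mul, Complex.norm_real, Real.norm_of_nonneg (by positivity)]
    have h4 : ‖w - z + (z - 1 - u)‖ ≤ K / (N : ℝ) ^ 2 + (ρ / N) ^ 2 :=
      (norm_add_le _ _).trans (add_le_add hwz' hzu)
    calc ‖w - z + (z - 1 - u)‖ * (N / ρ) ≤ (K / (N : ℝ) ^ 2 + (ρ / N) ^ 2) * (N / ρ) := by gcongr
      _ = (K / ρ + ρ) / N := by field_simp
      _ ≤ (K / ρmin + R) / N := by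
        have := hρ.1
        gcongr
      _ < ε := by
        rw [div_lt_iff₀ hNpos]
        rw [div_lt_iff₀ hε] at hNε
        linarith
  obtain ⟨ψ, hψ1, hψ2, hv0, hv2, hvψ⟩ := hdir v hve
  refine ⟨‖v‖ * (ρ / N), ψ, by positivity, ?_, hψ1, hψ2, ?_⟩
  · calc ‖v‖ * (ρ / N) ≤ 2 * (R / N) := by gcongr
      _ < r₀ := by
        rw [div_lt_iff₀ hr₀] at hNr
        rw [← mul_div_assoc, div_lt_iff₀ hNpos]
        nlinarith
  · have h3 : (1 : ℂ) + (‖v‖ * (ρ / N) : ℝ) * Complex.exp (ψ * Complex.I) = w := by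
      have h4 : ((‖v‖ * (ρ / N) : ℝ) : ℂ) * Complex.exp (ψ * Complex.I)
          = (‖v‖ * Complex.exp (ψ * Complex.I)) * (ρ / N : ℝ) := by push_cast; ring
      rw [h4, ← hvψ, hv]
      have h5 : (N : ℂ) ≠ 0 := by exact_mod_cast hNpos.ne'
      have h6 : (ρ : ℂ) ≠ 0 := by exact_mod_cast hρ0.ne'
      push_cast
      field_simp
      ring
    rw [h3, hw]

end Pool.Agent.R262.OPA
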