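import Pool.Agent.R262.OPA.Est
import Pool.Agent.R262.OPA.Pert
import Pool.Agent.R262.OPA.Zero

/-!
# Approximation of `1/P` by functions whose optimal approximants have a prescribed zero
-/

open Filter Topology
open scoped InnerProductSpace ComplexConjugate

namespace Pool.Agent.R262.OPA

/-- `g = 1/P` with exponentially decaying coefficients and `P(1) ≠ 0` -/
structure Good (P : Polynomial ℂ) (g : PowerSeries ℂ) : Prop where
  ev : P.eval 1 ≠ 0
  inv : (P : PowerSeries ℂ) * g = 1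
  dec : ExpDec g

/-- the inverses of polynomials -/
def A : Set H := {x | ∃ P, Good P (ser x)}

lemma s_tendsto : Tendsto s atTop (𝓝 0) := by
  unfold s
  have h : Tendsto (fun k : ℕ => ((k : ℝ) + 1) ^ 4) atTop atTop :=
    (tendsto_pow_atTop (by norm_num)).comp
      (tendsto_atTop_add_const_right _ _ tendsto_natCast_atTop_atTop)
  exact h.const_div_atTop 1

lemma act_X_pow_apply (x : H) (N k : ℕ) : (act (Polynomial.X ^ N) x) (k + N) =
    (s (k + N) : ℂ) * PowerSeries.coeff k (ser x) := by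
  rw [apply_eq, ser_act]
  congr 1
  push_cast
  rw [PowerSeries.coeff_X_pow_mul]

lemma act_X_pow_apply_lt (x : H) {N k : ℕ} (h : k < N) : (act (Polynomial.X ^ N) x) k = 0 := by
  rw [apply_eq, ser_act]
  push_cast
  rw [PowerSeries.coeff_X_pow_mul', if_neg (by omega), mul_zero]

lemma shift_tendsto {x : H} (hx : ExpDec (ser x)) :
    Tendsto (fun N : ℕ => ‖act (Polynomial.X ^ N) x‖) atTop (𝓝 0) := by
  set T := ∑' k, ‖PowerSeries.coeff k (ser x)‖ ^ 2 with hT
  have hb : ∀ N : ℕ, ‖act (Polynomial.X ^ N) x‖ ≤ s N * Real.sqrt T := by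
    intro N
    have h1 : ‖act (Polynomial.X ^ N) x‖ ^ 2 ≤ s N ^ 2 * T := by
      rw [normSq_eq, ← (summable_sq _).sum_add_tsum_nat_add N]
      have h2 : ∑ i ∈ Finset.range N, ‖(act (Polynomial.X ^ N) x) i‖ ^ 2 = 0 := by
        apply Finset.sum_eq_zero
        intro i hi
        rw [act_X_pow_apply_lt x (Finset.mem_range.1 hi)]; simp
      rw [h2, zero_add, hT, ← tsum_mul_left]
      have hs := (summable_nat_add_iff N).2 (summable_sq (act (Polynomial.X ^ N) x))
      refine hs.tsum_le_tsum (fun i => ?_) (hx.summable_sq.mul_left _)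
      rw [act_X_pow_apply, norm_mul, Complex.norm_real, Real.norm_of_nonneg (s_pos _).le, mul_pow]
      have := s_anti (show N ≤ i + N by omega)
      have := (s_pos (i + N)).le
      gcongr
    have h3 : 0 ≤ T := tsum_nonneg fun k => by positivity
    have h4 : s N ^ 2 * T = (s N * Real.sqrt T) ^ 2 := by rw [mul_pow, Real.sq_sqrt h3]
    rw [h4] at h1
    exact le_of_sq_le_sq h1 (by have := (s_pos N).le; positivity)
  have h5 : Tendsto (fun N => s N * Real.sqrt T) atTop (𝓝 0) := by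
    simpa using s_tendsto.mul_const (Real.sqrt T)
  exact squeeze_zero (fun _ => norm_nonneg _) hb h5

lemma norm_act_X_pow_le (N : ℕ) (y : H) : ‖act (Polynomial.X ^ N) y‖ ≤ ‖y‖ := by
  have h := norm_act_le (Polynomial.X ^ N) y
  have h1 : l1 (Polynomial.X ^ N) ≤ 1 := by
    rw [l1_eq (Polynomial.natDegree_X_pow_le N)]
    simp only [Polynomial.coeff_X_pow]
    rw [Finset.sum_eq_single N]
    · simp
    · intro k _ hk
      rw [if_neg hk]; simp
    · intro h; simp at h
  nlinarith [norm_nonneg y]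

lemma act_bb (a : ℂ) (N : ℕ) (y : H) : act (bb a N) y = y - a • act (Polynomial.X ^ N) y := by
  unfold bb
  rw [act_sub, act_one, act_mul]
  congr 1
  simp [act, Algebra.algebraMap_eq_smul_one]

lemma le_norm_act_bb {a : ℂ} (ha : ‖a‖ = 4 / 5) (N : ℕ) (y : H) :
    ‖y‖ ≤ 5 * ‖act (bb a N) y‖ := by
  rw [act_bb]
  have h1 := norm_sub_norm_le y (a • act (Polynomial.X ^ N) y)
  rw [norm_smul, ha] at h1
  have h2 := norm_act_X_pow_le N y
  linarith

lemma norm_act_bb_le {a : ℂ} (ha : ‖a‖ = 4 / 5) (N : ℕ) (y : H) :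
    ‖act (bb a N) y‖ ≤ 2 * ‖y‖ := by
  rw [act_bb]
  refine (norm_sub_le _ _).trans ?_
  rw [norm_smul, ha]
  have h2 := norm_act_X_pow_le N y
  linarith [norm_nonneg y]

/-- dividing by `1 - a z^N` moves a function only a little -/
lemma near_step {a : ℂ} (ha : ‖a‖ = 4 / 5) {N : ℕ} {f g : H} (h : act (bb a N) f = g) :
    ‖f - g‖ ≤ 5 * ‖act (Polynomial.X ^ N) g‖ := by
  have h1 := le_norm_act_bb ha N (f - g)
  have h2 : act (bb a N) (f - g) = a • act (Polynomial.X ^ N) g := by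
    rw [map_sub, h, act_bb]; abel
  rw [h2, norm_smul, ha] at h1
  linarith [norm_nonneg (act (Polynomial.X ^ N) g)]

lemma near_two {a : ℂ} (ha : ‖a‖ = 4 / 5) {N : ℕ} {f₂ f₁ g : H} (h1 : act (bb a N) f₁ = g)
    (h2 : act (bb a N) f₂ = f₁) : ‖f₂ - g‖ ≤ 35 * ‖act (Polynomial.X ^ N) g‖ := by
  have h3 := near_step ha h1
  have h4 := near_step ha h2
  have h5 : ‖act (Polynomial.X ^ N) f₁‖ ≤ ‖act (Polynomial.X ^ N) g‖ + ‖f₁ - g‖ := by
    have : f₁ = g + (f₁ - g) := by abel
    calc ‖act (Polynomial.X ^ N) f₁‖ = ‖act (Polynomial.X ^ N) g + act (Polynomial.X ^ N) (f₁ - g)‖ := by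
          rw [← map_add, ← this]
      _ ≤ _ := (norm_add_le _ _).trans (add_le_add_right (norm_act_X_pow_le _ _) _)
  have h6 : ‖f₂ - g‖ ≤ ‖f₂ - f₁‖ + ‖f₁ - g‖ := by
    have : f₂ - g = (f₂ - f₁) + (f₁ - g) := by abel
    rw [this]; exact norm_add_le _ _
  linarith

lemma l1_le {r : Polynomial ℂ} {n : ℕ} (hr : r.natDegree ≤ n) :
    l1 r ≤ ((n : ℝ) + 1) ^ 5 * ‖act r e‖ := by
  rw [l1_eq hr]
  have h : ∀ k ∈ Finset.range (n + 1), ‖r.coeff k‖ ≤ ((n : ℝ) + 1) ^ 4 * ‖act r e‖ := by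
    intro k hk
    have h1 := norm_apply_le (act r e) k
    rw [act_e_apply, norm_mul, Complex.norm_real, Real.norm_of_nonneg (s_pos k).le] at h1
    have h2 : 1 / ((n : ℝ) + 1) ^ 4 ≤ s k := s_anti (Nat.lt_succ_iff.1 (Finset.mem_range.1 hk))
    have h3 : 1 / ((n : ℝ) + 1) ^ 4 * ‖r.coeff k‖ ≤ ‖act r e‖ := by
      refine le_trans ?_ h1
      gcongr
    rw [one_div, inv_mul_le_iff₀ (by positivity)] at h3
    exact h3
  refine (Finset.sum_le_sum h).trans (le_of_eq ?_)
  rw [Finset.sum_const, Finset.card_range, nsmul_eq_mul]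
  push_cast
  ring

/-- lower bound for `r f` if `f = 1/Q` -/
lemma lower {f : H} {Q : Polynomial ℂ} {L : ℝ} (hQ : act Q f = e) (hL : ∀ y, ‖act Q y‖ ≤ L * ‖y‖)
    (r : Polynomial ℂ) : ‖act r e‖ ≤ L * ‖act r f‖ := by
  rw [← hQ, ← act_mul, mul_comm, act_mul]
  exact hL _

lemma coeff_mul_le {r : Polynomial ℂ} {n : ℕ} (hr : r.natDegree ≤ n) {g : PowerSeries ℂ} {C ρ : ℝ}
    (hC : 0 < C) (hρ : 0 < ρ) (hρ1 : ρ < 1) (hg : ∀ k, ‖PowerSeries.coeff k g‖ ≤ C * ρ ^ k) {m l : ℕ}
    (hm : n + l ≤ m) : ‖PowerSeries.coeff m ((r : PowerSeries ℂ) * g)‖ ≤ l1 r * (C * ρ ^ l) := by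
  rw [PowerSeries.coeff_mul, Finset.Nat.sum_antidiagonal_eq_sum_range_succ_mk, l1_eq hr,
    Finset.sum_mul]
  refine (norm_sum_le _ _).trans ?_
  have hsub : Finset.range (n + 1) ⊆ Finset.range (m + 1) := by
    intro k; simp only [Finset.mem_range]; omega
  rw [← Finset.sum_subset hsub]
  · apply Finset.sum_le_sum
    intro k hk
    rw [norm_mul, Polynomial.coeff_coe]
    have h1 : ρ ^ (m - k) ≤ ρ ^ l := by
      apply pow_le_pow_of_le_one hρ.le hρ1.le
      have := Finset.mem_range.1 hk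
      omega
    have h2 := hg (m - k)
    have h3 : ‖PowerSeries.coeff (m - k) g‖ ≤ C * ρ ^ l := h2.trans (by gcongr)
    gcongr
  · intro k _ hk
    rw [Finset.mem_range, not_lt] at hk
    rw [Polynomial.coeff_coe, Polynomial.coeff_eq_zero_of_natDegree_lt (by omega)]
    simp

lemma err_series (a : ℂ) {N : ℕ} (hN : 0 < N) :
    (1 + PowerSeries.C (-(a * sig N)) * PowerSeries.X ^ N) * sup (bet a) N - 1 = sup (gam a N) N := by
  ext k
  rw [add_mul, one_mul, mul_assoc, map_sub, map_add, PowerSeries.coeff_C_mul,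
    PowerSeries.coeff_X_pow_mul', PowerSeries.coeff_one, coeff_sup (bet a) N k,
    coeff_sup (gam a N) N k]
  by_cases hd : N ∣ k
  · obtain ⟨m, rfl⟩ := hd
    rw [if_pos (Dvd.intro m rfl), if_pos (Dvd.intro m rfl), Nat.mul_div_cancel_left _ hN]
    cases m with
    | zero =>
      have h1 : ¬ N ≤ N * 0 := by simp; omega
      rw [if_neg h1]
      simp [bet, gam]
    | succ m =>
      have h1 : N ≤ N * (m + 1) := Nat.le_mul_of_pos_right _ (Nat.succ_pos m)
      have h2 : N * (m + 1) ≠ 0 := by positivity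
      have h3 : N * (m + 1) - N = m * N := by rw [mul_add, mul_one, Nat.add_sub_cancel, mul_comm]
      rw [if_pos h1, if_neg h2, h3, coeff_sup_mul _ hN]
      show _ = bet a (m + 1) - a * sig N * bet a m
      ring
  · have h0 : k ≠ 0 := by rintro rfl; exact hd (dvd_zero N)
    rw [if_neg hd, if_neg hd, if_neg h0]
    by_cases h1 : N ≤ k
    · have h2 : ¬ N ∣ k - N := by
        intro h
        apply hd
        have := dvd_add h (dvd_refl N)
        rwa [Nat.sub_add_cancel h1] at this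
      rw [if_pos h1, coeff_sup, if_neg h2]
      simp
    · rw [if_neg h1]; simp
lemma bet_eq_geo_sq (a : ℂ) {N : ℕ} (hN : 0 < N) : sup (bet a) N = geo a N * geo a N :=
  (geo_sq a hN).symm

/-- **the inside case**: near-optimality of `P (1 - a σ z^N)` for `f = g / (1 - a z^N)²` -/
theorem inside {P : Polynomial ℂ} {g : H} (hP : Good P (ser g)) (d : ℕ) :
    ∀ᶠ N : ℕ in atTop, ∀ a : ℂ, ‖a‖ = 4 / 5 → ∀ f : H, ser f = ser g * sup (bet a) N →
      ∃ κ > 0, ∃ η ≥ 0, η < κ * (1 / (N : ℝ) ^ 2) ∧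
        (∀ r : Polynomial ℂ, r.natDegree ≤ N + d → κ * l1 r ≤ ‖act r f‖) ∧
        (∀ r : Polynomial ℂ, r.natDegree ≤ N + d →
          ‖⟪act r f, act (P * (1 + Polynomial.C (-(a * sig N)) * Polynomial.X ^ N)) f - e⟫_ℂ‖ ≤
            η * ‖act r f‖) := by
  obtain ⟨C, ρ, hC, hρ, hρ1, hg⟩ := hP.dec
  set L : ℝ := 4 * l1 P + 1 with hL
  have hL0 : 0 < L := by have := l1_nonneg P; positivity
  set g0 := ‖PowerSeries.coeff 0 (ser g)‖ with hg0
  have hg00 : 0 ≤ g0 := norm_nonneg _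
  set K : ℝ := C0 * (L * (g0 + C)) * L * ((d : ℝ) + 1) ^ 5 with hK
  have hC0 := C0_pos
  have hK0 : 0 < K := by positivity
  -- exponential smallness
  have hexp : ∀ᶠ N : ℕ in atTop, ((N : ℝ) + d + 1) ^ 5 * ρ ^ (N - d) ≤ 1 := by
    have h1 := tendsto_pow_const_mul_const_pow_of_lt_one 5 hρ.le hρ1
    have h2 : Tendsto (fun N : ℕ => ((N + (d + 1) : ℕ) : ℝ) ^ 5 * ρ ^ (N + (d + 1))) atTop (𝓝 0) :=
      h1.comp (tendsto_add_atTop_nat (d + 1))
    have h3 : (0 : ℝ) < ρ ^ (2 * d + 1) := by positivity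
    filter_upwards [h2.eventually (gt_mem_nhds h3), eventually_ge_atTop d] with N hN hNd
    have h4 : ρ ^ (N + (d + 1)) = ρ ^ (N - d) * ρ ^ (2 * d + 1) := by
      rw [← pow_add]; congr 1; omega
    rw [h4, ← mul_assoc] at hN
    push_cast at hN
    have h5 : ((N : ℝ) + (d + 1)) ^ 5 * ρ ^ (N - d) < 1 := by
      by_contra hcon
      rw [not_lt] at hcon
      have := mul_le_mul_of_nonneg_right hcon h3.le
      rw [one_mul] at this
      linarith
    have h6 : (N : ℝ) + d + 1 = N + (d + 1) := by ring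
    rw [h6]
    exact h5.le
  have hN' : Tendsto (fun N : ℕ => (N : ℝ)) atTop atTop := tendsto_natCast_atTop_atTop
  filter_upwards [hexp, eventually_ge_atTop (max d 1), hN'.eventually_gt_atTop K]
    with N hNe hNd hNK a ha f hf
  have hN1 : 1 ≤ N := (le_max_right _ _).trans hNd
  have hNd' : d ≤ N := (le_max_left _ _).trans hNd
  have hN0 : 0 < N := hN1
  have hNpos : (0 : ℝ) < N := by exact_mod_cast hN0
  have hser : ser (act (P * bb a N * bb a N) f) = 1 := by
    rw [ser_act, hf, bet_eq_geo_sq a hN0]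
    push_cast
    have h1 := bb_mul_geo a hN0
    have h2 := hP.inv
    calc (P : PowerSeries ℂ) * (bb a N : PowerSeries ℂ) * (bb a N : PowerSeries ℂ) *
          (ser g * (geo a N * geo a N))
        = ((P : PowerSeries ℂ) * ser g) * ((bb a N : PowerSeries ℂ) * geo a N) *
          ((bb a N : PowerSeries ℂ) * geo a N) := by ring
      _ = 1 := by rw [h1, h2]; ring
  have hQ : act (P * bb a N * bb a N) f = e := ser_injective (by rw [hser, ser_e])
  have hQL : ∀ y : H, ‖act (P * bb a N * bb a N) y‖ ≤ L * ‖y‖ := by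
    intro y
    rw [act_mul, act_mul]
    calc ‖act P (act (bb a N) (act (bb a N) y))‖ ≤ l1 P * ‖act (bb a N) (act (bb a N) y)‖ :=
          norm_act_le _ _
      _ ≤ l1 P * (2 * (2 * ‖y‖)) := by
          have h1 := norm_act_bb_le ha N (act (bb a N) y)
          have h2 := norm_act_bb_le ha N y
          have h3 := l1_nonneg P
          gcongr
          linarith
      _ ≤ L * ‖y‖ := by
          rw [hL]
          nlinarith [norm_nonneg y]
  have hlow : ∀ r : Polynomial ℂ, ‖act r e‖ ≤ L * ‖act r f‖ := lower hQ hQL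
  refine ⟨1 / (((N : ℝ) + d + 1) ^ 5 * L), by positivity,
    C0 * (v N 0 * (L * (g0 + C))), ?_, ?_, ?_, ?_⟩
  · have := (v_pos N 0).le
    positivity
  · -- smallness of `η`
    have hv0 : v N 0 = 1 / ((N : ℝ) + 1) ^ 8 := by
      unfold v s
      push_cast
      rw [div_pow, one_pow, ← pow_mul]
      simp
    rw [hv0, div_mul_div_comm, one_mul, lt_div_iff₀ (by positivity)]
    have h1 : ((N : ℝ) + d + 1) ≤ (d + 1) * (N + 1) := by
      have : (0 : ℝ) ≤ d := Nat.cast_nonneg d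
      nlinarith
    have h2 : ((N : ℝ) + d + 1) ^ 5 ≤ ((d + 1) * (N + 1)) ^ 5 := by gcongr
    calc C0 * (1 / ((N : ℝ) + 1) ^ 8 * (L * (g0 + C))) * (((N : ℝ) + d + 1) ^ 5 * L * (N : ℝ) ^ 2)
        ≤ C0 * (1 / ((N : ℝ) + 1) ^ 8 * (L * (g0 + C))) *
          (((d + 1) * (N + 1)) ^ 5 * L * ((N : ℝ) + 1) ^ 2) := by
          gcongr
          linarith
      _ = K / (N + 1) := by rw [hK]; field_simp
      _ < 1 := by
          rw [div_lt_one (by positivity)]; linarith
  · intro r hr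
    have h1 := l1_le hr
    have h2 := hlow r
    have h3 : (((N + d : ℕ) : ℝ) + 1) = (N : ℝ) + d + 1 := by push_cast; ring
    rw [h3] at h1
    rw [one_div, inv_mul_le_iff₀ (by positivity)]
    calc l1 r ≤ ((N : ℝ) + d + 1) ^ 5 * ‖act r e‖ := h1
      _ ≤ ((N : ℝ) + d + 1) ^ 5 * (L * ‖act r f‖) := by gcongr
      _ = _ := by ring
  · intro r hr
    set t := ‖act r f‖ with ht
    have ht0 : 0 ≤ t := norm_nonneg _
    have h1 := l1_le hr
    have h2 : ‖act r e‖ ≤ L * t := hlow r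
    have h3 : (((N + d : ℕ) : ℝ) + 1) = (N : ℝ) + d + 1 := by push_cast; ring
    rw [h3] at h1
    set h : PowerSeries ℂ := (r : PowerSeries ℂ) * ser g with hh
    have hx : ser (act r f) = h * sup (bet a) N := by rw [ser_act, hf, hh]; ring
    have hy : ser (act (P * (1 + Polynomial.C (-(a * sig N)) * Polynomial.X ^ N)) f - e)
        = sup (gam a N) N := by
      rw [ser_sub, ser_act, ser_e, hf, ← err_series a hN0]
      push_cast
      have h2 := hP.inv
      have h4 : (P : PowerSeries ℂ) * (1 + PowerSeries.C (-(a * sig N)) * PowerSeries.X ^ N) *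
          (ser g * sup (bet a) N) = ((P : PowerSeries ℂ) * ser g) *
          ((1 + PowerSeries.C (-(a * sig N)) * PowerSeries.X ^ N) * sup (bet a) N) := by ring
      rw [h4, h2, one_mul]
    have hsm : ∀ m ≥ 2, ‖PowerSeries.coeff (m * N) h‖ ≤ L * t * C := by
      intro m hm
      have h4 : (N + d) + (N - d) ≤ m * N := by
        have : 2 * N ≤ m * N := Nat.mul_le_mul_right _ hm
        omega
      calc ‖PowerSeries.coeff (m * N) h‖ ≤ l1 r * (C * ρ ^ (N - d)) :=
            coeff_mul_le hr hC hρ hρ1 hg h4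
        _ ≤ (((N : ℝ) + d + 1) ^ 5 * (L * t)) * (C * ρ ^ (N - d)) := by
            have : l1 r ≤ ((N : ℝ) + d + 1) ^ 5 * (L * t) := h1.trans (by gcongr)
            gcongr
        _ = L * t * C * (((N : ℝ) + d + 1) ^ 5 * ρ ^ (N - d)) := by ring
        _ ≤ L * t * C * 1 := by gcongr
        _ = _ := mul_one _
    have hb := inner_bound hN1 ha (by positivity : 0 ≤ L * t * C) hx hy hsm
    have h0 : ‖PowerSeries.coeff 0 h‖ ≤ L * t * g0 := by
      rw [hh, PowerSeries.coeff_mul]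
      simp only [Finset.Nat.antidiagonal_zero, Finset.sum_singleton, norm_mul, Polynomial.coeff_coe]
      have h5 := norm_apply_le (act r e) 0
      rw [act_e_apply, s_zero] at h5
      simp only [Complex.ofReal_one, one_mul] at h5
      have h6 : ‖r.coeff 0‖ ≤ L * t := h5.trans h2
      gcongr
    refine hb.trans ?_
    have h7 := (v_pos N 0).le
    calc C0 * (v N 0 * (‖PowerSeries.coeff 0 h‖ + L * t * C))
        ≤ C0 * (v N 0 * (L * t * g0 + L * t * C)) := by gcongr
      _ = _ := by ring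

end Pool.Agent.R262.OPA
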