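import Pool.Agent.R262.OPA.Dense

/-!
# Baire category argument
-/

open Filter Topology
open scoped InnerProductSpace ComplexConjugate

namespace Pool.Agent.R262.OPA

lemma e_mem_A : e ∈ A := by
  refine ⟨1, ⟨by simp, by simp [ser_e], ?_⟩⟩
  refine ⟨1, 1 / 2, one_pos, by norm_num, by norm_num, fun k => ?_⟩
  rw [ser_e, PowerSeries.coeff_one]
  split_ifs with h
  · subst h; simp
  · simp only [norm_zero]; positivity

/-- the conclusion of the category argument -/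
theorem exists_generic : ∃ y : H, (∀ ε > 0, ∃ p : Polynomial ℂ, ‖act p y - e‖ < ε) ∧
    ∀ r₀ θ₁ θ₂ : ℝ, 0 < r₀ → θ₁ < θ₂ → Req r₀ θ₁ θ₂ y := by
  classical
  let ι := {t : ℚ × ℚ × ℚ // 0 < t.1 ∧ t.2.1 < t.2.2} × ℕ
  let Y := closure A
  have hYc : IsClosed Y := isClosed_closure
  have : CompleteSpace Y := hYc.completeSpace_coe
  have : Nonempty Y := ⟨⟨e, subset_closure e_mem_A⟩⟩
  let U : ι → Set H := fun i =>
    interior {x | Req (i.1.1.1 : ℚ) (i.1.1.2.1 : ℚ) (i.1.1.2.2 : ℚ) x} ∩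
      {x | ∃ p : Polynomial ℂ, ‖act p x - e‖ < 1 / ((i.2 : ℝ) + 1)}
  have hUo : ∀ i, IsOpen (U i) := by
    intro i
    refine isOpen_interior.inter ?_
    have : {x : H | ∃ p : Polynomial ℂ, ‖act p x - e‖ < 1 / ((i.2 : ℝ) + 1)}
        = ⋃ p : Polynomial ℂ, {x | ‖act p x - e‖ < 1 / ((i.2 : ℝ) + 1)} := by
      ext x; simp
    rw [this]
    refine isOpen_iUnion fun p => ?_
    exact isOpen_lt (by fun_prop) continuous_const
  let V : ι → Set Y := fun i => Subtype.val ⁻¹' (U i)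
  have hVo : ∀ i, IsOpen (V i) := fun i => (hUo i).preimage continuous_subtype_val
  have hVd : ∀ i, Dense (V i) := by
    intro i
    rw [Metric.dense_iff]
    intro y ε hε
    obtain ⟨g, hg, hgy⟩ := Metric.mem_closure_iff.1 y.2 (ε / 2) (by linarith)
    obtain ⟨⟨⟨r₀, θ₁, θ₂⟩, hr₀, hθ⟩, j⟩ := i
    obtain ⟨f, hf, hfg, δ, hδ, hball⟩ := dense_req hg (ε := ε / 2) (by linarith)
      (r₀ := (r₀ : ℝ)) (θ₁ := (θ₁ : ℝ)) (θ₂ := (θ₂ : ℝ)) (by exact_mod_cast hr₀)
      (by exact_mod_cast hθ)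
    refine ⟨⟨f, subset_closure hf⟩, ?_, ?_, ?_⟩
    · rw [Metric.mem_ball, Subtype.dist_eq]
      calc dist f (y : H) ≤ dist f g + dist g (y : H) := dist_triangle _ _ _
        _ < ε / 2 + ε / 2 := by
            rw [dist_eq_norm f g, dist_comm g]
            exact add_lt_add hfg hgy
        _ = ε := by ring
    · rw [mem_interior]
      refine ⟨Metric.ball f δ, ?_, Metric.isOpen_ball, Metric.mem_ball_self hδ⟩
      intro z hz
      exact hball z (by rwa [mem_ball_iff_norm] at hz)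
    · obtain ⟨P, hP⟩ := hf
      refine ⟨P, ?_⟩
      have : act P f = e := ser_injective (by rw [ser_act, ser_e]; exact hP.inv)
      rw [this, sub_self, norm_zero]
      positivity
  obtain ⟨y, hy⟩ := (dense_iInter_of_isOpen hVo hVd).nonempty
  rw [Set.mem_iInter] at hy
  refine ⟨y, fun ε hε => ?_, fun r₀ θ₁ θ₂ hr₀ hθ => ?_⟩
  · obtain ⟨j, hj⟩ := exists_nat_one_div_lt hε
    obtain ⟨p, hp⟩ := (hy ⟨⟨(1, 0, 1), by norm_num⟩, j⟩).2
    exact ⟨p, hp.trans hj⟩
  · obtain ⟨r', hr', hr''⟩ := exists_rat_btwn hr₀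
    obtain ⟨t₁, ht₁, ht₁'⟩ := exists_rat_btwn hθ
    obtain ⟨t₂, ht₂, ht₂'⟩ := exists_rat_btwn ht₁'
    have h := interior_subset
      (hy ⟨⟨(r', t₁, t₂), by exact_mod_cast hr', by exact_mod_cast ht₂⟩, 0⟩).1
    obtain ⟨n, q, hq, r, ψ, h1, h2, h3, h4, h5⟩ := h
    exact ⟨n, q, hq, r, ψ, h1, h2.trans hr'', ht₁.trans h3, h4.trans ht₂', h5⟩

/-- polynomials are dense -/
lemma exists_poly_near (x : H) {ε : ℝ} (hε : 0 < ε) : ∃ p : Polynomial ℂ, ‖act p e - x‖ < ε := by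
  classical
  have h := lp.hasSum_single (p := 2) (by norm_num) x
  rw [HasSum] at h
  obtain ⟨F, hF⟩ := ((Metric.tendsto_nhds.1 h) ε hε).exists
  refine ⟨∑ i ∈ F, Polynomial.C (x i / s i) * Polynomial.X ^ i, ?_⟩
  have : act (∑ i ∈ F, Polynomial.C (x i / s i) * Polynomial.X ^ i) e
      = ∑ i ∈ F, lp.single 2 i (x i) := by
    apply lp.ext
    funext k
    rw [act_e_apply, lp.coeFn_sum, Finset.sum_apply, Polynomial.finsetSum_coeff, Finset.mul_sum]
    apply Finset.sum_congr rfl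
    intro i _
    rw [Polynomial.coeff_C_mul, Polynomial.coeff_X_pow, lp.single_apply]
    by_cases hik : k = i
    · subst hik
      have := s_ne k
      simp
      field_simp
    · simp [hik]
  rw [this, ← dist_eq_norm]
  exact hF

/-- cyclicity from approximation of the unit -/
lemma cyclic_of {y : H} (h : ∀ ε > 0, ∃ p : Polynomial ℂ, ‖act p y - e‖ < ε) (x : H) {ε : ℝ}
    (hε : 0 < ε) : ∃ p : Polynomial ℂ, ‖act p y - x‖ < ε := by
  obtain ⟨t, ht⟩ := exists_poly_near x (half_pos hε)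
  have hl := l1_nonneg t
  obtain ⟨p, hp⟩ := h (ε / 2 / (l1 t + 1)) (by positivity)
  refine ⟨t * p, ?_⟩
  have h1 : act (t * p) y - x = act t (act p y - e) + (act t e - x) := by
    rw [act_mul, map_sub]; abel
  have h2 : ‖act t (act p y - e)‖ ≤ ε / 2 := by
    refine (norm_act_le _ _).trans ?_
    calc l1 t * ‖act p y - e‖ ≤ (l1 t + 1) * (ε / 2 / (l1 t + 1)) := by
          gcongr
          linarith
      _ = ε / 2 := by field_simp
  rw [h1]
  calc _ ≤ ‖act t (act p y - e)‖ + ‖act t e - x‖ := norm_add_le _ _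
    _ < ε := by linarith

end Pool.Agent.R262.OPA
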