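import Mathlib

/-!
# The weighted Hardy space with weight `(k+1)^(-8)` as `ℓ²`

An element `x` of `ℓ²` represents the power series `ser x` with coefficients `x k * (k+1)^4`.
Polynomials act on `ℓ²` (`act p x`) by multiplication of power series.
-/

open Filter Topology
open scoped InnerProductSpace

namespace Pool.Agent.R262.OPA

/-- square root of the weight -/
noncomputable def s (k : ℕ) : ℝ := 1 / ((k : ℝ) + 1) ^ 4

lemma s_pos (k : ℕ) : 0 < s k := by unfold s; positivity

lemma s_ne (k : ℕ) : (s k : ℂ) ≠ 0 := by exact_mod_cast (s_pos k).ne'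

lemma s_zero : s 0 = 1 := by simp [s]

lemma s_anti : Antitone s := by
  intro a b h
  unfold s
  have : (a : ℝ) ≤ b := by exact_mod_cast h
  gcongr

lemma s_le_one (k : ℕ) : s k ≤ 1 := by
  have := s_anti (Nat.zero_le k)
  rwa [s_zero] at this

/-- the Hilbert space `ℓ²` -/
noncomputable abbrev H := lp (fun _ : ℕ => ℂ) 2

lemma memH_iff {f : ℕ → ℂ} : Memℓp f 2 ↔ Summable (fun k => ‖f k‖ ^ 2) := by
  have h2 : (2 : ENNReal).toReal = 2 := by norm_num
  constructor
  · intro h
    have := h.summable (by norm_num)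
    rw [h2] at this
    simpa using this
  · intro h
    apply memℓp_gen
    rw [h2]
    simpa using h

lemma normSq_eq (x : H) : ‖x‖ ^ 2 = ∑' k, ‖x k‖ ^ 2 := by
  have h2 : (2 : ENNReal).toReal = 2 := by norm_num
  have := lp.norm_rpow_eq_tsum (p := 2) (by norm_num) x
  rw [h2] at this
  simpa using this

lemma summable_sq (x : H) : Summable (fun k => ‖x k‖ ^ 2) := memH_iff.1 (lp.memℓp x)

/-- the power series represented by `x` -/
noncomputable def ser (x : H) : PowerSeries ℂ := PowerSeries.mk fun k => x k / (s k : ℂ)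

@[simp] lemma coeff_ser (x : H) (k : ℕ) : PowerSeries.coeff k (ser x) = x k / (s k : ℂ) := by
  simp [ser]

lemma ser_add (x y : H) : ser (x + y) = ser x + ser y := by
  ext k; simp [add_div]

lemma ser_sub (x y : H) : ser (x - y) = ser x - ser y := by
  ext k; simp [sub_div]

lemma ser_smul (c : ℂ) (x : H) : ser (c • x) = PowerSeries.C c * ser x := by
  ext k; simp [mul_div_assoc]

lemma ser_injective : Function.Injective ser := by
  intro x y h
  apply lp.ext
  funext k
  have := congrArg (PowerSeries.coeff k) h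
  simp only [coeff_ser] at this
  have h1 := s_ne k
  field_simp at this
  exact this

/-- membership in the weighted Hardy space -/
def Mem (f : PowerSeries ℂ) : Prop := Summable fun k => ‖(s k : ℂ) * PowerSeries.coeff k f‖ ^ 2

/-- the element of `ℓ²` with a given power series -/
noncomputable def toH (f : PowerSeries ℂ) (hf : Mem f) : H :=
  ⟨fun k => (s k : ℂ) * PowerSeries.coeff k f, memH_iff.2 hf⟩

lemma toH_apply (f : PowerSeries ℂ) (hf : Mem f) (k : ℕ) :
    (toH f hf) k = (s k : ℂ) * PowerSeries.coeff k f := rfl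

lemma ser_toH (f : PowerSeries ℂ) (hf : Mem f) : ser (toH f hf) = f := by
  ext k
  rw [coeff_ser, toH_apply]
  have := s_ne k
  field_simp

lemma mem_ser (x : H) : Mem (ser x) := by
  unfold Mem
  have : (fun k => ‖(s k : ℂ) * PowerSeries.coeff k (ser x)‖ ^ 2) = fun k => ‖x k‖ ^ 2 := by
    funext k
    rw [coeff_ser]
    have := s_ne k
    congr 2
    field_simp
  rw [this]
  exact summable_sq x

/-- coefficients of the shifted series -/
noncomputable def shiftFun (x : ℕ → ℂ) : ℕ → ℂ
  | 0 => 0
  | k + 1 => (s (k + 1) / s k : ℝ) * x k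

lemma shiftFun_norm_le (x : ℕ → ℂ) (k : ℕ) : ‖shiftFun x (k + 1)‖ ^ 2 ≤ ‖x k‖ ^ 2 := by
  have h : ‖shiftFun x (k + 1)‖ ≤ ‖x k‖ := by
    simp only [shiftFun, norm_mul, Complex.norm_real, Real.norm_eq_abs]
    rw [abs_of_pos (div_pos (s_pos _) (s_pos _))]
    have h1 : s (k + 1) / s k ≤ 1 := (div_le_one (s_pos _)).2 (s_anti (Nat.le_succ k))
    nlinarith [norm_nonneg (x k)]
  gcongr

lemma shiftFun_mem (x : H) : Memℓp (shiftFun x) 2 := by
  rw [memH_iff, ← summable_nat_add_iff 1]
  exact Summable.of_nonneg_of_le (fun k => by positivity) (fun k => shiftFun_norm_le x k)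
    (summable_sq x)

/-- multiplication by `z` -/
noncomputable def M : H →L[ℂ] H :=
  LinearMap.mkContinuous
    { toFun := fun x => ⟨shiftFun x, shiftFun_mem x⟩
      map_add' := by
        intro x y
        apply lp.ext
        funext k
        show shiftFun (x + y : H) k = shiftFun x k + shiftFun y k
        cases k with
        | zero => simp [shiftFun]
        | succ k => simp [shiftFun, mul_add]
      map_smul' := by
        intro c x
        apply lp.ext
        funext k
        show shiftFun (c • x : H) k = c * shiftFun x k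
        cases k with
        | zero => simp [shiftFun]
        | succ k => simp [shiftFun]; ring } 1 (by
    intro x
    rw [one_mul]
    have h : ‖(⟨shiftFun x, shiftFun_mem x⟩ : H)‖ ^ 2 ≤ ‖x‖ ^ 2 := by
      rw [normSq_eq, normSq_eq]
      have hs : Summable fun k => ‖shiftFun x k‖ ^ 2 := memH_iff.1 (shiftFun_mem x)
      show ∑' k, ‖shiftFun x k‖ ^ 2 ≤ _
      rw [hs.tsum_eq_zero_add]
      have h0 : ‖shiftFun x 0‖ ^ 2 = 0 := by simp [shiftFun]
      rw [h0, zero_add]
      exact Summable.tsum_le_tsum (fun k => shiftFun_norm_le x k)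
        ((summable_nat_add_iff 1).2 hs) (summable_sq x)
    exact le_of_sq_le_sq h (norm_nonneg _)
    )

lemma M_apply (x : H) (k : ℕ) : (M x) k = shiftFun x k := rfl

lemma ser_M (x : H) : ser (M x) = PowerSeries.X * ser x := by
  ext k
  rw [coeff_ser, M_apply]
  cases k with
  | zero => simp [shiftFun]
  | succ k =>
    rw [PowerSeries.coeff_succ_X_mul, coeff_ser]
    have h1 := s_ne k
    have h2 := s_ne (k + 1)
    simp only [shiftFun]
    push_cast
    field_simp

lemma norm_M_le : ‖M‖ ≤ 1 := LinearMap.mkContinuous_norm_le _ zero_le_one _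

/-- action of a polynomial -/
noncomputable def act (p : Polynomial ℂ) : H →L[ℂ] H := Polynomial.aeval M p

lemma act_add (p q : Polynomial ℂ) (x : H) : act (p + q) x = act p x + act q x := by
  simp [act]

lemma act_sub (p q : Polynomial ℂ) (x : H) : act (p - q) x = act p x - act q x := by
  simp [act]

lemma act_mul (p q : Polynomial ℂ) (x : H) : act (p * q) x = act p (act q x) := by
  simp [act]

lemma act_one (x : H) : act 1 x = x := by simp [act]

lemma ser_act (p : Polynomial ℂ) (x : H) : ser (act p x) = (p : PowerSeries ℂ) * ser x := by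
  induction p using Polynomial.induction_on generalizing x with
  | C a =>
    simp only [act, Polynomial.aeval_C, Polynomial.coe_C]
    rw [← ser_smul]
    rfl
  | add p q hp hq => rw [act_add, ser_add, hp, hq, Polynomial.coe_add, add_mul]
  | monomial n a h =>
    have : act (Polynomial.C a * Polynomial.X ^ (n + 1)) x
        = act (Polynomial.C a * Polynomial.X ^ n) (M x) := by
      rw [pow_succ, ← mul_assoc, act_mul]
      simp [act]
    rw [this, h, ser_M]
    push_cast
    ring

/-- the sum of the absolute values of the coefficients -/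
noncomputable def l1 (p : Polynomial ℂ) : ℝ := ∑ k ∈ p.support, ‖p.coeff k‖

lemma l1_nonneg (p : Polynomial ℂ) : 0 ≤ l1 p := Finset.sum_nonneg fun _ _ => norm_nonneg _

lemma l1_eq {p : Polynomial ℂ} {n : ℕ} (h : p.natDegree ≤ n) :
    l1 p = ∑ k ∈ Finset.range (n + 1), ‖p.coeff k‖ := by
  unfold l1
  apply Finset.sum_subset
  · intro k hk
    rw [Finset.mem_range]
    have := Polynomial.le_natDegree_of_mem_supp k hk
    omega
  · intro k _ hk
    simpa using hk

lemma norm_act_le (p : Polynomial ℂ) (x : H) : ‖act p x‖ ≤ l1 p * ‖x‖ := by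
  have hM : ∀ k : ℕ, ‖M ^ k‖ ≤ 1 := by
    intro k
    induction k with
    | zero =>
      rw [pow_zero]
      exact ContinuousLinearMap.norm_id_le
    | succ k ih =>
      rw [pow_succ]
      calc ‖M ^ k * M‖ ≤ ‖M ^ k‖ * ‖M‖ := norm_mul_le _ _
        _ ≤ 1 * 1 := mul_le_mul ih norm_M_le (norm_nonneg _) zero_le_one
        _ = 1 := one_mul 1
  have h : act p x = ∑ k ∈ Finset.range (p.natDegree + 1), p.coeff k • (M ^ k) x := by
    unfold act
    rw [Polynomial.aeval_eq_sum_range]
    simp [ContinuousLinearMap.sum_apply]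
  rw [h, l1_eq (le_refl _), Finset.sum_mul]
  refine (norm_sum_le _ _).trans (Finset.sum_le_sum fun k _ => ?_)
  rw [norm_smul]
  have : ‖(M ^ k) x‖ ≤ 1 * ‖x‖ := (M ^ k).le_of_opNorm_le (hM k) x
  rw [one_mul] at this
  gcongr

/-- the unit of the space: the constant function `1` -/
noncomputable def e : H := lp.single 2 0 (1 : ℂ)

lemma ser_e : ser e = 1 := by
  ext k
  rw [coeff_ser, e, lp.single_apply]
  by_cases hk : k = 0
  · subst hk
    simp [s_zero]
  · simp [hk, PowerSeries.coeff_one]

lemma act_e_apply (p : Polynomial ℂ) (k : ℕ) : (act p e) k = (s k : ℂ) * p.coeff k := by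
  have h := coeff_ser (act p e) k
  rw [ser_act, ser_e, mul_one, Polynomial.coeff_coe] at h
  rw [h]
  have := s_ne k
  field_simp

lemma norm_apply_le (x : H) (k : ℕ) : ‖x k‖ ≤ ‖x‖ :=
  lp.norm_apply_le_norm (by norm_num) x k

end Pool.Agent.R262.OPA
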