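import Pool.Agent.R262.OPA.Approx

/-!
# Density of the requirement that some optimal approximant has a zero in the sector
-/

open Filter Topology
open scoped InnerProductSpace ComplexConjugate

namespace Pool.Agent.R262.OPA

/-- some optimal approximant of `x` has a zero in the sector with vertex `1` -/
def Req (r₀ θ₁ θ₂ : ℝ) (x : H) : Prop :=
  ∃ (n : ℕ) (q : Polynomial ℂ), OptO x n q ∧ ∃ r ψ : ℝ, 0 < r ∧ r < r₀ ∧ θ₁ < ψ ∧ ψ < θ₂ ∧
    q.eval (1 + r * Complex.exp (ψ * Complex.I)) = 0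

/-- geometric sequence of inverses -/
lemma exists_div {P : Polynomial ℂ} {g : H} (hP : Good P (ser g)) {a : ℂ} (ha : ‖a‖ = 4 / 5) {N : ℕ}
    (hN : 0 < N) : ∃ f : H, ser f = ser g * geo a N ∧ Good (P * bb a N) (ser f) ∧
      act (bb a N) f = g := by
  have ha0 : a ≠ 0 := by rintro rfl; norm_num at ha
  have hdec : ExpDec (ser g * geo a N) :=
    hP.dec.mul (geo_expDec hN ha0 (by rw [ha]; norm_num))
  refine ⟨toH _ hdec.mem, ser_toH _ _, ⟨?_, ?_, ?_⟩, ?_⟩
  · rw [Polynomial.eval_mul]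
    apply mul_ne_zero hP.ev
    simp only [bb, Polynomial.eval_sub, Polynomial.eval_one, Polynomial.eval_mul, Polynomial.eval_C,
      Polynomial.eval_pow, Polynomial.eval_X, one_pow, mul_one]
    rw [sub_ne_zero]
    rintro rfl
    norm_num at ha
  · rw [ser_toH]
    push_cast
    have h1 := bb_mul_geo a hN
    have h2 := hP.inv
    calc (P : PowerSeries ℂ) * (bb a N : PowerSeries ℂ) * (ser g * geo a N)
        = ((P : PowerSeries ℂ) * ser g) * ((bb a N : PowerSeries ℂ) * geo a N) := by ring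
      _ = 1 := by rw [h1, h2]; ring
  · rw [ser_toH]; exact hdec
  · apply ser_injective
    rw [ser_act, ser_toH]
    have h1 := bb_mul_geo a hN
    calc (bb a N : PowerSeries ℂ) * (ser g * geo a N) = ser g * ((bb a N : PowerSeries ℂ) * geo a N) := by
          ring
      _ = ser g := by rw [h1, mul_one]

/-- from near-optimality to the requirement -/
lemma finish {P : Polynomial ℂ} {f : H} {N : ℕ} {c : ℂ} {κ η : ℝ} (hκ : 0 < κ) (hη : 0 ≤ η)
    (hlt : η < κ * (1 / (N : ℝ) ^ 2))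
    (ha : ∀ r : Polynomial ℂ, r.natDegree ≤ N + P.natDegree → κ * l1 r ≤ ‖act r f‖)
    (hb : ∀ r : Polynomial ℂ, r.natDegree ≤ N + P.natDegree →
      ‖⟪act r f, act (P * (1 + Polynomial.C c * Polynomial.X ^ N)) f - e⟫_ℂ‖ ≤ η * ‖act r f‖)
    {r₀ θ₁ θ₂ : ℝ}
    (hz : ∀ q : Polynomial ℂ, q.natDegree ≤ N + P.natDegree →
      l1 (q - P * (1 + Polynomial.C c * Polynomial.X ^ N)) ≤ 1 / (N : ℝ) ^ 2 →
      ∃ r ψ : ℝ, 0 < r ∧ r < r₀ ∧ θ₁ < ψ ∧ ψ < θ₂ ∧
        q.eval (1 + r * Complex.exp (ψ * Complex.I)) = 0) :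
    ∃ δ > 0, ∀ y : H, ‖y - f‖ < δ → Req r₀ θ₁ θ₂ y := by
  have hpd : (P * (1 + Polynomial.C c * Polynomial.X ^ N)).natDegree ≤ N + P.natDegree := by
    refine (Polynomial.natDegree_mul_le).trans ?_
    have : (1 + Polynomial.C c * Polynomial.X ^ N : Polynomial ℂ).natDegree ≤ N := by
      refine (Polynomial.natDegree_add_le _ _).trans (max_le (by simp) ?_)
      exact Polynomial.natDegree_C_mul_X_pow_le c N
    omega
  obtain ⟨δ, hδ, h⟩ := pert hpd hκ hη ha hb hlt
  refine ⟨δ, hδ, fun y hy => ?_⟩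
  obtain ⟨q, hq⟩ := exists_optO y (N + P.natDegree)
  exact ⟨_, q, hq, hz q hq.1 (h y hy q hq).le⟩

lemma exists_cos_ne_zero {θ₁ θ₂ : ℝ} (h : θ₁ < θ₂) : ∃ θ, θ₁ < θ ∧ θ < θ₂ ∧ Real.cos θ ≠ 0 := by
  by_contra hcon
  push Not at hcon
  set w := min (θ₂ - θ₁) 1 with hw
  have hw0 : 0 < w := lt_min (by linarith) one_pos
  have hw1 : w ≤ 1 := min_le_right _ _
  have hw2 : w ≤ θ₂ - θ₁ := min_le_left _ _
  have h1 := hcon (θ₁ + w / 3) (by linarith) (by linarith)
  have h2 := hcon (θ₁ + w / 2) (by linarith) (by linarith)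
  have h3 : Real.sin (w / 6) = 0 := by
    have : w / 6 = (θ₁ + w / 2) - (θ₁ + w / 3) := by ring
    rw [this, Real.sin_sub, h1, h2]; ring
  have h4 : 0 < Real.sin (w / 6) := Real.sin_pos_of_pos_of_lt_pi (by linarith)
    (by have := Real.pi_gt_three; linarith)
  linarith

/-- norm of `exp (-ρ e^{iθ})` -/
lemma norm_exp_dir (ρ θ : ℝ) :
    ‖Complex.exp (-(ρ * Complex.exp (θ * Complex.I)))‖ = Real.exp (-(ρ * Real.cos θ)) := by
  rw [Complex.norm_exp]
  congr 1
  simp [Complex.exp_ofReal_mul_I_re]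

theorem dense_req {g : H} (hg : g ∈ A) {ε : ℝ} (hε : 0 < ε) {r₀ θ₁ θ₂ : ℝ} (hr : 0 < r₀)
    (hθ : θ₁ < θ₂) :
    ∃ y ∈ A, ‖y - g‖ < ε ∧ ∃ δ > 0, ∀ z : H, ‖z - y‖ < δ → Req r₀ θ₁ θ₂ z := by
  obtain ⟨P, hP⟩ := hg
  obtain ⟨θ, h1, h2, hcos⟩ := exists_cos_ne_zero hθ
  have hshift := shift_tendsto hP.dec
  rcases lt_or_gt_of_ne hcos with hneg | hpos
  · -- inside
    have hlog1 : 0 < Real.log (136 / 125) := Real.log_pos (by norm_num)
    set ρmin := Real.log (136 / 125) / (-Real.cos θ) with hρmin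
    set ρmax := Real.log (8 / 5) / (-Real.cos θ) with hρmax
    have hc0 : 0 < -Real.cos θ := by linarith
    have hmin : 0 < ρmin := by positivity
    have hz := zero_loc P hP.ev (le_refl _) h1 h2 hr hmin (ρmax := ρmax)
    have hin := inside hP P.natDegree
    have hsh := hshift.eventually (gt_mem_nhds (show (0 : ℝ) < ε / 35 by positivity))
    obtain ⟨N, hz, hin, hsh, hN⟩ := (hz.and (hin.and (hsh.and (eventually_ge_atTop 1)))).exists
    have hN0 : 0 < N := hN
    have hσ1 := le_sig hN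
    have hσ2 := sig_le N
    set σ := sig N with hσ
    have hσ0 : 0 < σ := by linarith
    set ρ := Real.log (4 / 5 * σ) / (-Real.cos θ) with hρ
    have hρI : ρ ∈ Set.Icc ρmin ρmax := by
      constructor
      · rw [hρmin, hρ]
        have : Real.log (136 / 125) ≤ Real.log (4 / 5 * σ) :=
          Real.log_le_log (by norm_num) (by linarith)
        gcongr
      · rw [hρmax, hρ]
        have : Real.log (4 / 5 * σ) ≤ Real.log (8 / 5) :=
          Real.log_le_log (by positivity) (by linarith)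
        gcongr
    set a : ℂ := Complex.exp (-(ρ * Complex.exp (θ * Complex.I))) / σ with ha
    have hρc : -(ρ * Real.cos θ) = Real.log (4 / 5 * σ) := by
      rw [hρ]; field_simp
    have han : ‖a‖ = 4 / 5 := by
      rw [ha, norm_div, norm_exp_dir, hρc, Real.exp_log (by positivity), Complex.norm_real,
        Real.norm_of_nonneg hσ0.le]
      field_simp
    obtain ⟨f₁, hf₁, hG₁, hb₁⟩ := exists_div hP han hN0
    obtain ⟨f₂, hf₂, hG₂, hb₂⟩ := exists_div hG₁ han hN0
    have hser : ser f₂ = ser g * sup (bet a) N := by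
      rw [hf₂, hf₁, bet_eq_geo_sq a hN0, mul_assoc]
    obtain ⟨κ, hκ, η, hη, hlt, hA, hB⟩ := hin a han f₂ hser
    have hcz : -(a * σ) * Complex.exp (ρ * Complex.exp (θ * Complex.I)) = -1 := by
      have hσc : (σ : ℂ) ≠ 0 := by exact_mod_cast hσ0.ne'
      rw [ha, div_mul_cancel₀ _ hσc, neg_mul, ← Complex.exp_add, neg_add_cancel, Complex.exp_zero]
    refine ⟨f₂, ⟨_, hG₂⟩, ?_, finish hκ hη hlt hA hB (hz ρ hρI _ hcz)⟩
    have := near_two han hb₁ hb₂
    linarith
  · -- outside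
    have hlog1 : 0 < Real.log (5 / 4) := Real.log_pos (by norm_num)
    set ρ := Real.log (5 / 4) / Real.cos θ with hρ
    have hρ0 : 0 < ρ := by positivity
    have hz := zero_loc P hP.ev (le_refl _) h1 h2 hr hρ0 (ρmax := ρ)
    have hsh := hshift.eventually (gt_mem_nhds (show (0 : ℝ) < ε / 5 by positivity))
    obtain ⟨N, hz, hsh, hN⟩ := (hz.and (hsh.and (eventually_ge_atTop 1))).exists
    have hN0 : 0 < N := hN
    have hNpos : (0 : ℝ) < N := by exact_mod_cast hN0
    set a : ℂ := Complex.exp (-(ρ * Complex.exp (θ * Complex.I))) with ha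
    have han : ‖a‖ = 4 / 5 := by
      rw [ha, norm_exp_dir, hρ, div_mul_cancel₀ _ hcos, Real.exp_neg, Real.exp_log (by norm_num)]
      norm_num
    obtain ⟨f₁, hf₁, hG₁, hb₁⟩ := exists_div hP han hN0
    have hpeq : P * (1 + Polynomial.C (-a) * Polynomial.X ^ N) = P * bb a N := by
      unfold bb
      rw [Polynomial.C_neg]
      ring
    have hQ : act (P * bb a N) f₁ = e := ser_injective (by rw [ser_act, ser_e]; exact hG₁.inv)
    set L := l1 (P * bb a N) + 1 with hL
    have hL0 : 0 < L := by have := l1_nonneg (P * bb a N); positivity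
    have hQL : ∀ y : H, ‖act (P * bb a N) y‖ ≤ L * ‖y‖ := fun y => by
      have := norm_act_le (P * bb a N) y
      rw [hL, add_mul]
      linarith [norm_nonneg y]
    have hcz : -a * Complex.exp (ρ * Complex.exp (θ * Complex.I)) = -1 := by
      rw [ha, neg_mul, ← Complex.exp_add, neg_add_cancel, Complex.exp_zero]
    refine ⟨f₁, ⟨_, hG₁⟩, ?_, finish (κ := 1 / (((N + P.natDegree : ℕ) : ℝ) + 1) ^ 5 / L) (η := 0)
      (by positivity) le_rfl (by positivity) ?_ ?_ (hz ρ ⟨le_rfl, le_rfl⟩ _ hcz)⟩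
    · have := near_step han hb₁
      linarith
    · intro r hr
      have h3 := l1_le hr
      have h4 := lower hQ hQL r
      rw [div_div, one_div, inv_mul_le_iff₀ (by positivity)]
      calc l1 r ≤ (((N + P.natDegree : ℕ) : ℝ) + 1) ^ 5 * ‖act r e‖ := h3
        _ ≤ (((N + P.natDegree : ℕ) : ℝ) + 1) ^ 5 * (L * ‖act r f₁‖) := by gcongr
        _ = _ := by ring
    · intro r _
      rw [hpeq, hQ, sub_self, inner_zero_right]
      simp

end Pool.Agent.R262.OPA
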