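import Pool.Agent.R262.OPA.Series

/-!
# The main estimate: the approximant `P (1 + c z^N)` is nearly optimal
-/

open Filter Topology
open scoped InnerProductSpace ComplexConjugate

namespace Pool.Agent.R262.OPA

/-- the weights at the multiples of `N` -/
noncomputable def v (N j : ℕ) : ℝ := s ((j + 1) * N) ^ 2

lemma v_pos (N j : ℕ) : 0 < v N j := by unfold v; have := s_pos ((j + 1) * N); positivity

lemma v_le_zero (N j : ℕ) : v N j ≤ v N 0 := by
  unfold v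
  have h1 := s_anti (show (0 + 1) * N ≤ (j + 1) * N by gcongr; omega)
  have h2 := (s_pos ((j + 1) * N)).le
  gcongr

lemma v_le_one (N j : ℕ) : v N j ≤ 1 := by
  unfold v
  exact pow_le_one₀ (s_pos _).le (s_le_one _)

lemma v_mul_le {N : ℕ} (hN : 1 ≤ N) (j : ℕ) : v N j * ((j : ℝ) + 1) ^ 2 ≤ v N 0 := by
  have hN' : (1 : ℝ) ≤ N := by exact_mod_cast hN
  have hj : (0 : ℝ) ≤ j := Nat.cast_nonneg j
  have e1 : v N j = 1 / (((j : ℝ) + 1) * N + 1) ^ 8 := by
    unfold v s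
    push_cast
    rw [div_pow, one_pow, ← pow_mul]
  have e2 : v N 0 = 1 / ((N : ℝ) + 1) ^ 8 := by
    unfold v s
    push_cast
    rw [div_pow, one_pow, ← pow_mul]
    simp
  rw [e1, e2, div_mul_eq_mul_div, one_mul, div_le_div_iff₀ (by positivity) (by positivity), one_mul]
  have h1 : ((j : ℝ) + 2) * (N + 1) ≤ 2 * (((j : ℝ) + 1) * N + 1) := by nlinarith
  have h2 : (((j : ℝ) + 2) * (N + 1)) ^ 8 ≤ (2 * (((j : ℝ) + 1) * N + 1)) ^ 8 := by gcongr
  have h3 : ((j : ℝ) + 1) ^ 2 * 2 ^ 8 ≤ ((j : ℝ) + 2) ^ 8 := by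
    have h4 : 4 * ((j : ℝ) + 1) ≤ (j + 2) ^ 2 := by nlinarith
    have h5 : (4 * ((j : ℝ) + 1)) ^ 4 ≤ ((j + 2) ^ 2) ^ 4 := by gcongr
    have h6 : ((j : ℝ) + 1) ^ 2 ≤ (j + 1) ^ 4 := by
      apply pow_le_pow_right₀ (by linarith) (by norm_num)
    calc ((j : ℝ) + 1) ^ 2 * 2 ^ 8 ≤ (j + 1) ^ 4 * 2 ^ 8 := by gcongr
      _ = (4 * ((j : ℝ) + 1)) ^ 4 := by ring
      _ ≤ ((j + 2) ^ 2) ^ 4 := h5
      _ = _ := by ring
  rw [mul_pow, mul_pow] at h2
  have h7 : (0 : ℝ) < ((N : ℝ) + 1) ^ 8 := by positivity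
  nlinarith

/-- `∑ (j+2)² (16/25)^j < ∞` -/
lemma summable2 : Summable fun j : ℕ => ((j : ℝ) + 2) ^ 2 * (16 / 25 : ℝ) ^ j := by
  have h := summable_pow_mul_geometric_of_norm_lt_one 2 (r := (16 / 25 : ℝ)) (by norm_num)
  have h2 := ((summable_nat_add_iff 2).2 h).mul_left ((25 / 16) ^ 2)
  refine h2.congr fun j => ?_
  push_cast
  rw [pow_add]
  ring

lemma summable1 : Summable fun j : ℕ => ((j : ℝ) + 2) * (4 / 5 : ℝ) ^ j := by
  have h := summable_pow_mul_geometric_of_norm_lt_one 1 (r := (4 / 5 : ℝ)) (by norm_num)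
  have h2 := ((summable_nat_add_iff 2).2 h).mul_left ((5 / 4) ^ 2)
  refine h2.congr fun j => ?_
  push_cast
  rw [pow_add]
  ring

noncomputable def S0 (N : ℕ) : ℝ := ∑' j : ℕ, v N j * (((j : ℝ) + 1) ^ 2 * (16 / 25 : ℝ) ^ j)

noncomputable def S1 (N : ℕ) : ℝ :=
  ∑' j : ℕ, v N j * (((j : ℝ) + 1) * ((j : ℝ) + 2) * (16 / 25 : ℝ) ^ j)

lemma summable_S0 (N : ℕ) :
    Summable fun j : ℕ => v N j * (((j : ℝ) + 1) ^ 2 * (16 / 25 : ℝ) ^ j) := by
  refine Summable.of_nonneg_of_le (fun j => ?_) (fun j => ?_) summable2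
  · have := (v_pos N j).le; positivity
  · calc v N j * (((j : ℝ) + 1) ^ 2 * (16 / 25 : ℝ) ^ j)
        ≤ 1 * (((j : ℝ) + 2) ^ 2 * (16 / 25 : ℝ) ^ j) := by
          have := v_le_one N j
          have := (v_pos N j).le
          gcongr
          linarith
      _ = _ := one_mul _

lemma summable_S1 (N : ℕ) :
    Summable fun j : ℕ => v N j * (((j : ℝ) + 1) * ((j : ℝ) + 2) * (16 / 25 : ℝ) ^ j) := by
  refine Summable.of_nonneg_of_le (fun j => ?_) (fun j => ?_) summable2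
  · have := (v_pos N j).le; positivity
  · calc v N j * (((j : ℝ) + 1) * ((j : ℝ) + 2) * (16 / 25 : ℝ) ^ j)
        ≤ 1 * (((j : ℝ) + 2) ^ 2 * (16 / 25 : ℝ) ^ j) := by
          have := v_le_one N j
          have := (v_pos N j).le
          rw [sq]
          gcongr
          linarith
      _ = _ := one_mul _

lemma S0_pos (N : ℕ) : 0 < S0 N := by
  have h := (summable_S0 N).tsum_pos (fun j => ?_) 0 ?_
  · exact h
  · have := (v_pos N j).le; positivity
  · have := v_pos N 0; positivity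

lemma S1_le (N : ℕ) : S1 N ≤ 2 * S0 N := by
  unfold S1 S0
  rw [← tsum_mul_left]
  refine (summable_S1 N).tsum_le_tsum (fun j => ?_) ((summable_S0 N).mul_left 2)
  have h1 := (v_pos N j).le
  have h2 : ((j : ℝ) + 2) ≤ 2 * (j + 1) := by
    have : (0 : ℝ) ≤ j := Nat.cast_nonneg j
    linarith
  calc v N j * (((j : ℝ) + 1) * ((j : ℝ) + 2) * (16 / 25 : ℝ) ^ j)
      ≤ v N j * (((j : ℝ) + 1) * (2 * (j + 1)) * (16 / 25 : ℝ) ^ j) := by gcongr
    _ = _ := by ring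

lemma le_S1 {N : ℕ} (hN : 1 ≤ N) : 34 / 25 * S0 N ≤ S1 N := by
  -- `S1 - S0 ≥ v 0 ≥ 9/25 S0`
  have h0 : S0 N ≤ 25 / 9 * v N 0 := by
    have hg : HasSum (fun j : ℕ => v N 0 * (16 / 25 : ℝ) ^ j) (v N 0 * (1 - 16 / 25)⁻¹) :=
      (hasSum_geometric_of_lt_one (by norm_num) (by norm_num)).mul_left _
    have h1 : S0 N ≤ v N 0 * (1 - 16 / 25)⁻¹ := by
      rw [← hg.tsum_eq]
      refine (summable_S0 N).tsum_le_tsum (fun j => ?_) hg.summable
      rw [← mul_assoc]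
      have := v_mul_le hN j
      gcongr
    refine h1.trans (le_of_eq ?_)
    ring
  have h1 : v N 0 + S0 N ≤ S1 N := by
    have hd : Summable fun j : ℕ => v N j * (((j : ℝ) + 1) * (16 / 25 : ℝ) ^ j) := by
      refine ((summable_S1 N).sub (summable_S0 N)).congr fun j => ?_
      ring
    have h2 : S1 N = (∑' j : ℕ, v N j * (((j : ℝ) + 1) * (16 / 25 : ℝ) ^ j)) + S0 N := by
      unfold S1 S0
      rw [← hd.tsum_add (summable_S0 N)]
      apply tsum_congr
      intro j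
      ring
    rw [h2]
    have h3 : v N 0 ≤ ∑' j : ℕ, v N j * (((j : ℝ) + 1) * (16 / 25 : ℝ) ^ j) := by
      have := hd.le_tsum 0 (fun j _ => by have := (v_pos N j).le; positivity)
      simpa using this
    linarith
  linarith

/-- `c = - a σ` with `σ = S1 / S0` -/
noncomputable def sig (N : ℕ) : ℝ := S1 N / S0 N

lemma sig_le (N : ℕ) : sig N ≤ 2 := by
  unfold sig
  rw [div_le_iff₀ (S0_pos N)]
  exact S1_le N

lemma le_sig {N : ℕ} (hN : 1 ≤ N) : 34 / 25 ≤ sig N := by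
  unfold sig
  rw [le_div_iff₀ (S0_pos N)]
  exact le_S1 hN

lemma sig_mul (N : ℕ) : sig N * S0 N = S1 N := div_mul_cancel₀ _ (S0_pos N).ne'

/-- coefficients of `1/(1-aw)²` -/
noncomputable def bet (a : ℂ) (j : ℕ) : ℂ := ((j : ℂ) + 1) * a ^ j

/-- coefficients of the error -/
noncomputable def gam (a : ℂ) (N : ℕ) : ℕ → ℂ
  | 0 => 0
  | j + 1 => bet a (j + 1) - a * sig N * bet a j

lemma norm_bet {a : ℂ} (ha : ‖a‖ = 4 / 5) (j : ℕ) : ‖bet a j‖ = ((j : ℝ) + 1) * (4 / 5) ^ j := by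
  unfold bet
  rw [norm_mul, norm_pow, ha]
  congr 1
  rw [show ((j : ℂ) + 1) = ((j + 1 : ℕ) : ℂ) by push_cast; ring, Complex.norm_natCast]
  push_cast; ring

lemma norm_gam_le {a : ℂ} (ha : ‖a‖ = 4 / 5) {N : ℕ} (hN : 1 ≤ N) (j : ℕ) :
    ‖gam a N (j + 1)‖ ≤ 3 * ((j : ℝ) + 2) * (4 / 5) ^ (j + 1) := by
  have h1 := sig_le N
  have h2 := le_sig hN
  show ‖bet a (j + 1) - a * sig N * bet a j‖ ≤ _
  refine (norm_sub_le _ _).trans ?_
  rw [norm_mul, norm_mul, norm_bet ha, norm_bet ha, ha, Complex.norm_real,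
    Real.norm_of_nonneg (by linarith)]
  push_cast
  have h3 : (4 / 5 : ℝ) * sig N * (((j : ℝ) + 1) * (4 / 5) ^ j)
      ≤ 4 / 5 * 2 * (((j : ℝ) + 2) * (4 / 5) ^ j) := by
    gcongr
    linarith
  calc _ ≤ ((j : ℝ) + 1 + 1) * (4 / 5) ^ (j + 1) + 4 / 5 * 2 * (((j : ℝ) + 2) * (4 / 5) ^ j) := by
        gcongr
    _ = _ := by ring

lemma orth {a : ℂ} (ha : ‖a‖ = 4 / 5) (N : ℕ) :
    HasSum (fun j => (v N j : ℂ) * (conj (bet a j) * gam a N (j + 1))) 0 := by
  have haa : conj a * a = ((16 / 25 : ℝ) : ℂ) := by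
    rw [Complex.conj_mul', ha]; norm_num
  have h1 : ∀ j : ℕ, (v N j : ℂ) * (conj (bet a j) * gam a N (j + 1))
      = a * ((v N j * (((j : ℝ) + 1) * ((j : ℝ) + 2) * (16 / 25 : ℝ) ^ j) : ℝ) : ℂ)
        - a * sig N * ((v N j * (((j : ℝ) + 1) ^ 2 * (16 / 25 : ℝ) ^ j) : ℝ) : ℂ) := by
    intro j
    show (v N j : ℂ) * (conj (bet a j) * (bet a (j + 1) - a * sig N * bet a j)) = _
    have h2 : conj a ^ j * a ^ j = ((16 / 25 : ℝ) : ℂ) ^ j := by rw [← mul_pow, haa]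
    unfold bet
    simp only [map_mul, map_add, map_pow, map_one, Complex.conj_natCast]
    push_cast at h2 ⊢
    rw [← h2]
    ring
  have h2 := (Complex.hasSum_ofReal.2 (summable_S1 N).hasSum).mul_left a
  have h3 := (Complex.hasSum_ofReal.2 (summable_S0 N).hasSum).mul_left (a * sig N)
  have h4 := h2.sub h3
  have h5 : a * ((∑' j : ℕ, v N j * (((j : ℝ) + 1) * ((j : ℝ) + 2) * (16 / 25 : ℝ) ^ j) : ℝ) : ℂ)
      - a * sig N * ((∑' j : ℕ, v N j * (((j : ℝ) + 1) ^ 2 * (16 / 25 : ℝ) ^ j) : ℝ) : ℂ) = 0 := by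
    have h6 : (sig N : ℂ) * ((S0 N : ℝ) : ℂ) = ((S1 N : ℝ) : ℂ) := by exact_mod_cast sig_mul N
    show a * ((S1 N : ℝ) : ℂ) - a * sig N * ((S0 N : ℝ) : ℂ) = 0
    rw [mul_assoc, h6]; ring
  rw [h5] at h4
  rw [funext h1]
  exact h4

lemma apply_eq (x : H) (k : ℕ) : x k = (s k : ℂ) * PowerSeries.coeff k (ser x) := by
  rw [coeff_ser]
  have := s_ne k
  field_simp

lemma sum_bet_le {a : ℂ} (ha : ‖a‖ = 4 / 5) (j : ℕ) : ∑ i ∈ Finset.range j, ‖bet a i‖ ≤ 25 := by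
  have h : ∑ i ∈ Finset.range j, ‖bet a i‖ = 25 - (25 + 5 * (j : ℝ)) * (4 / 5) ^ j := by
    induction j with
    | zero => simp
    | succ j ih =>
      rw [Finset.sum_range_succ, ih, norm_bet ha]
      push_cast
      ring
  rw [h]
  have : 0 ≤ (25 + 5 * (j : ℝ)) * (4 / 5) ^ j := by positivity
  linarith

/-- the dominating sequence -/
noncomputable def W (j : ℕ) : ℝ :=
  3 * (16 / 25) * (((j : ℝ) + 2) ^ 2 * (16 / 25 : ℝ) ^ j) + 60 * (((j : ℝ) + 2) * (4 / 5 : ℝ) ^ j)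

lemma summable_W : Summable W := (summable2.mul_left _).add (summable1.mul_left _)

lemma W_nonneg (j : ℕ) : 0 ≤ W j := by unfold W; positivity

/-- the constant -/
noncomputable def C0 : ℝ := ∑' j, W j

lemma C0_pos : 0 < C0 := summable_W.tsum_pos W_nonneg 0 (by norm_num [W])

theorem inner_bound {N : ℕ} (hN : 1 ≤ N) {a : ℂ} (ha : ‖a‖ = 4 / 5) {x y : H}
    {h : PowerSeries ℂ} {ε : ℝ} (hε : 0 ≤ ε) (hx : ser x = h * sup (bet a) N)
    (hy : ser y = sup (gam a N) N) (hh : ∀ m ≥ 2, ‖PowerSeries.coeff (m * N) h‖ ≤ ε) :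
    ‖⟪x, y⟫_ℂ‖ ≤ C0 * (v N 0 * (‖PowerSeries.coeff 0 h‖ + ε)) := by
  have hN0 : 0 < N := hN
  set h0 := PowerSeries.coeff 0 h with hh0
  set h1 := PowerSeries.coeff N h with hh1
  set rest : ℕ → ℂ := fun j => ∑ i ∈ Finset.range j, bet a i * PowerSeries.coeff ((j + 1 - i) * N) h
    with hrest
  set R : ℕ → ℂ := fun j => (v N j : ℂ) * (conj (bet a (j + 1) * h0 + rest j) * gam a N (j + 1))
    with hR
  have hinj : Function.Injective (fun j : ℕ => (j + 1) * N) := by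
    intro i j hij
    have := Nat.eq_of_mul_eq_mul_right hN0 hij
    omega
  -- the terms
  have hterm : ∀ j : ℕ, ⟪x ((j + 1) * N), y ((j + 1) * N)⟫_ℂ
      = conj h1 * ((v N j : ℂ) * (conj (bet a j) * gam a N (j + 1))) + R j := by
    intro j
    rw [apply_eq x, apply_eq y, hx, hy, coeff_sup_mul _ hN0, coeff_mul_sup _ _ hN0,
      Finset.sum_range_succ, Finset.sum_range_succ]
    have e1 : (j + 1 - (j + 1)) * N = 0 := by simp
    have e2 : (j + 1 - j) * N = N := by rw [Nat.add_sub_cancel_left, one_mul]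
    rw [e1, e2]
    simp only [RCLike.inner_apply, hR, hrest, v, map_mul, map_add, Complex.conj_ofReal]
    push_cast
    ring
  have hnorm : ∀ j, ‖R j‖ ≤ v N 0 * (‖h0‖ + ε) * W j := by
    intro j
    have g1 : ‖rest j‖ ≤ 25 * ε := by
      refine (norm_sum_le _ _).trans ?_
      calc ∑ i ∈ Finset.range j, ‖bet a i * PowerSeries.coeff ((j + 1 - i) * N) h‖
          ≤ ∑ i ∈ Finset.range j, ‖bet a i‖ * ε := by
            apply Finset.sum_le_sum
            intro i hi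
            rw [norm_mul]
            have := hh (j + 1 - i) (by have := Finset.mem_range.1 hi; omega)
            gcongr
        _ = (∑ i ∈ Finset.range j, ‖bet a i‖) * ε := by rw [Finset.sum_mul]
        _ ≤ 25 * ε := by have := sum_bet_le ha j; gcongr
    have g2 : ‖bet a (j + 1) * h0 + rest j‖ ≤ ((j : ℝ) + 2) * (4 / 5) ^ (j + 1) * ‖h0‖ + 25 * ε := by
      refine (norm_add_le _ _).trans ?_
      rw [norm_mul, norm_bet ha]
      push_cast
      have : (j : ℝ) + 1 + 1 = j + 2 := by ring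
      rw [this]
      gcongr
    have g3 := norm_gam_le ha hN j
    have g4 := v_le_zero N j
    have g5 := (v_pos N j).le
    have g6 := (v_pos N 0).le
    rw [hR]
    simp only [norm_mul, RCLike.norm_conj, Complex.norm_real, Real.norm_of_nonneg g5]
    calc v N j * (‖bet a (j + 1) * h0 + rest j‖ * ‖gam a N (j + 1)‖)
        ≤ v N 0 * ((((j : ℝ) + 2) * (4 / 5) ^ (j + 1) * ‖h0‖ + 25 * ε) *
          (3 * ((j : ℝ) + 2) * (4 / 5) ^ (j + 1))) := by gcongr
      _ = v N 0 * (‖h0‖ * (3 * (16 / 25) * (((j : ℝ) + 2) ^ 2 * (16 / 25 : ℝ) ^ j))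
          + ε * (60 * (((j : ℝ) + 2) * (4 / 5 : ℝ) ^ j))) := by
          have : (16 / 25 : ℝ) ^ j = (4 / 5) ^ j * (4 / 5) ^ j := by
            rw [← mul_pow]; norm_num
          rw [this]; ring
      _ ≤ v N 0 * ((‖h0‖ + ε) * W j) := by
          have k1 : 0 ≤ 3 * (16 / 25) * (((j : ℝ) + 2) ^ 2 * (16 / 25 : ℝ) ^ j) := by positivity
          have k2 : 0 ≤ 60 * (((j : ℝ) + 2) * (4 / 5 : ℝ) ^ j) := by positivity
          have k3 : 0 ≤ ‖h0‖ := norm_nonneg _
          have k4 : (‖h0‖ * (3 * (16 / 25) * (((j : ℝ) + 2) ^ 2 * (16 / 25 : ℝ) ^ j))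
              + ε * (60 * (((j : ℝ) + 2) * (4 / 5 : ℝ) ^ j))) ≤ (‖h0‖ + ε) * W j := by
            unfold W
            nlinarith [mul_nonneg k3 k2, mul_nonneg hε k1]
          gcongr
      _ = _ := by ring
  have hRs : Summable R := Summable.of_norm_bounded (summable_W.mul_left _) hnorm
  have htot : ⟪x, y⟫_ℂ = ∑' j, R j := by
    rw [lp.inner_eq_tsum]
    have hsupp : Function.support (fun k => ⟪x k, y k⟫_ℂ) ⊆ Set.range (fun j : ℕ => (j + 1) * N) := by
      intro k hk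
      by_contra hcon
      apply hk
      have : y k = 0 := by
        rw [apply_eq y, hy, coeff_sup]
        split_ifs with hd
        · obtain ⟨m, rfl⟩ := hd
          cases m with
          | zero => simp [gam]
          | succ m =>
            exfalso
            apply hcon
            exact ⟨m, by ring⟩
        · simp
      simp only [this, inner_zero_right]
    rw [← hinj.tsum_eq hsupp, tsum_congr hterm]
    have ho := (orth ha N).mul_left (conj h1)
    rw [mul_zero] at ho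
    rw [(ho.summable).tsum_add hRs, ho.tsum_eq, zero_add]
  rw [htot]
  refine (norm_tsum_le_tsum_norm hRs.norm).trans ?_
  refine (hRs.norm.tsum_le_tsum hnorm (summable_W.mul_left _)).trans (le_of_eq ?_)
  rw [tsum_mul_left]
  unfold C0
  ring

end Pool.Agent.R262.OPA
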