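import Pool.Agent.R262.OPA.Basic

/-!
# Power series in `z^N`, and series with exponentially decaying coefficients
-/

open Filter Topology

namespace Pool.Agent.R262.OPA

open PowerSeries in
/-- exponentially decaying coefficients -/
def ExpDec (g : PowerSeries ℂ) : Prop :=
  ∃ C ρ : ℝ, 0 < C ∧ 0 < ρ ∧ ρ < 1 ∧ ∀ k, ‖coeff k g‖ ≤ C * ρ ^ k

lemma succ_mul_pow_le {t : ℝ} (h0 : 0 ≤ t) (h1 : t < 1) (k : ℕ) :
    ((k : ℝ) + 1) * t ^ k ≤ 1 / (1 - t) := by
  have h2 : ((k : ℝ) + 1) * t ^ k ≤ ∑ i ∈ Finset.range (k + 1), t ^ i := by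
    have : ((k : ℝ) + 1) * t ^ k = ∑ i ∈ Finset.range (k + 1), t ^ k := by simp
    rw [this]
    apply Finset.sum_le_sum
    intro i hi
    exact pow_le_pow_of_le_one h0 h1.le (Nat.lt_succ_iff.1 (Finset.mem_range.1 hi))
  refine h2.trans ?_
  rw [geom_sum_eq h1.ne, ← neg_div_neg_eq, neg_sub, neg_sub]
  have h3 : 0 < 1 - t := by linarith
  have h4 : 0 ≤ t ^ (k + 1) := by positivity
  gcongr
  linarith

theorem ExpDec.mul {g h : PowerSeries ℂ} (hg : ExpDec g) (hh : ExpDec h) : ExpDec (g * h) := by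
  obtain ⟨C₁, ρ₁, hC₁, hρ₁, hρ₁', h₁⟩ := hg
  obtain ⟨C₂, ρ₂, hC₂, hρ₂, hρ₂', h₂⟩ := hh
  set ρ := max ρ₁ ρ₂ with hρ
  have hρ0 : 0 < ρ := lt_max_of_lt_left hρ₁
  have hρ1 : ρ < 1 := max_lt hρ₁' hρ₂'
  set σ := (1 + ρ) / 2 with hσ
  have hσ0 : 0 < σ := by rw [hσ]; linarith
  have hσ1 : σ < 1 := by rw [hσ]; linarith
  have hρσ : ρ < σ := by rw [hσ]; linarith
  have ht : ρ / σ < 1 := (div_lt_one hσ0).2 hρσ
  have ht0 : 0 ≤ ρ / σ := by positivity
  have hpos : 0 < 1 / (1 - ρ / σ) := by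
    apply one_div_pos.2; linarith
  refine ⟨C₁ * C₂ * (1 / (1 - ρ / σ)), σ, by positivity, hσ0, hσ1, fun k => ?_⟩
  rw [PowerSeries.coeff_mul]
  have hb : ∀ p ∈ Finset.HasAntidiagonal.antidiagonal k,
      ‖PowerSeries.coeff p.1 g * PowerSeries.coeff p.2 h‖ ≤ C₁ * C₂ * ρ ^ k := by
    intro p hp
    rw [Finset.HasAntidiagonal.mem_antidiagonal] at hp
    rw [norm_mul]
    calc _ ≤ (C₁ * ρ ^ p.1) * (C₂ * ρ ^ p.2) := by
          apply mul_le_mul _ _ (norm_nonneg _) (by positivity)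
          · refine (h₁ _).trans ?_
            have : ρ₁ ≤ ρ := le_max_left _ _
            gcongr
          · refine (h₂ _).trans ?_
            have : ρ₂ ≤ ρ := le_max_right _ _
            gcongr
      _ = C₁ * C₂ * ρ ^ k := by rw [← hp, pow_add]; ring
  refine (norm_sum_le _ _).trans ((Finset.sum_le_sum hb).trans ?_)
  rw [Finset.sum_const, Finset.Nat.card_antidiagonal, nsmul_eq_mul]
  have h3 : ((k : ℝ) + 1) * ρ ^ k = (((k : ℝ) + 1) * (ρ / σ) ^ k) * σ ^ k := by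
    rw [div_pow]; field_simp
  push_cast
  calc ((k : ℝ) + 1) * (C₁ * C₂ * ρ ^ k) = C₁ * C₂ * (((k : ℝ) + 1) * ρ ^ k) := by ring
    _ = C₁ * C₂ * ((((k : ℝ) + 1) * (ρ / σ) ^ k) * σ ^ k) := by rw [h3]
    _ ≤ C₁ * C₂ * ((1 / (1 - ρ / σ)) * σ ^ k) := by
      have := succ_mul_pow_le ht0 ht k
      gcongr
    _ = _ := by ring

lemma ExpDec.summable_sq {g : PowerSeries ℂ} (hg : ExpDec g) :
    Summable fun k => ‖PowerSeries.coeff k g‖ ^ 2 := by
  obtain ⟨C, ρ, hC, hρ, hρ1, h⟩ := hg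
  have h2 : Summable fun k : ℕ => C ^ 2 * (ρ ^ 2) ^ k :=
    (summable_geometric_of_lt_one (by positivity) (by nlinarith)).mul_left _
  refine Summable.of_nonneg_of_le (fun k => by positivity) (fun k => ?_) h2
  calc ‖PowerSeries.coeff k g‖ ^ 2 ≤ (C * ρ ^ k) ^ 2 := by
        have := h k
        gcongr
    _ = _ := by ring

lemma ExpDec.mem {g : PowerSeries ℂ} (hg : ExpDec g) : Mem g := by
  refine Summable.of_nonneg_of_le (fun k => by positivity) (fun k => ?_) hg.summable_sq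
  rw [norm_mul, Complex.norm_real, Real.norm_of_nonneg (s_pos k).le]
  have h1 := s_le_one k
  have h2 := (s_pos k).le
  have : s k * ‖PowerSeries.coeff k g‖ ≤ ‖PowerSeries.coeff k g‖ := by
    nlinarith [norm_nonneg (PowerSeries.coeff k g)]
  gcongr

/-- the series `∑ β_j z^(j N)` -/
noncomputable def sup (β : ℕ → ℂ) (N : ℕ) : PowerSeries ℂ :=
  PowerSeries.mk fun k => if N ∣ k then β (k / N) else 0

lemma coeff_sup (β : ℕ → ℂ) (N k : ℕ) :
    PowerSeries.coeff k (sup β N) = if N ∣ k then β (k / N) else 0 := by simp [sup]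

lemma coeff_sup_mul (β : ℕ → ℂ) {N : ℕ} (hN : 0 < N) (m : ℕ) :
    PowerSeries.coeff (m * N) (sup β N) = β m := by
  rw [coeff_sup, if_pos (Dvd.intro_left m rfl), Nat.mul_div_cancel _ hN]

lemma coeff_mul_sup (h : PowerSeries ℂ) (β : ℕ → ℂ) {N : ℕ} (hN : 0 < N) (m : ℕ) :
    PowerSeries.coeff (m * N) (h * sup β N) =
      ∑ i ∈ Finset.range (m + 1), β i * PowerSeries.coeff ((m - i) * N) h := by
  rw [mul_comm h, PowerSeries.coeff_mul, Finset.Nat.sum_antidiagonal_eq_sum_range_succ_mk]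
  symm
  have hinj : Function.Injective (fun i : ℕ => i * N) := fun a b hab => Nat.eq_of_mul_eq_mul_right hN hab
  have h1 : ∑ i ∈ Finset.range (m + 1), β i * PowerSeries.coeff ((m - i) * N) h
      = ∑ k ∈ (Finset.range (m + 1)).image (fun i => i * N),
        PowerSeries.coeff k (sup β N) * PowerSeries.coeff (m * N - k) h := by
    rw [Finset.sum_image (fun a _ b _ hab => hinj hab)]
    apply Finset.sum_congr rfl
    intro i _
    rw [coeff_sup_mul β hN, ← Nat.sub_mul]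
  rw [h1]
  apply Finset.sum_subset
  · intro k hk
    simp only [Finset.mem_image, Finset.mem_range] at hk ⊢
    obtain ⟨i, hi, rfl⟩ := hk
    have : i * N ≤ m * N := Nat.mul_le_mul_right _ (by omega)
    omega
  · intro k hk hk'
    have : ¬ N ∣ k := by
      rintro ⟨i, rfl⟩
      apply hk'
      simp only [Finset.mem_image, Finset.mem_range] at hk ⊢
      refine ⟨i, ?_, by ring⟩
      have h2 : N * i ≤ N * m := by rw [mul_comm N m]; omega
      have := Nat.le_of_mul_le_mul_left h2 hN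
      omega
    rw [coeff_sup, if_neg this, zero_mul]

lemma coeff_sup_mul_sup_of_not_dvd (α β : ℕ → ℂ) {N k : ℕ} (hk : ¬ N ∣ k) :
    PowerSeries.coeff k (sup α N * sup β N) = 0 := by
  rw [PowerSeries.coeff_mul]
  apply Finset.sum_eq_zero
  intro p hp
  rw [Finset.HasAntidiagonal.mem_antidiagonal] at hp
  rw [coeff_sup, coeff_sup]
  by_cases h1 : N ∣ p.1
  · by_cases h2 : N ∣ p.2
    · exact absurd (hp ▸ dvd_add h1 h2) hk
    · rw [if_neg h2, mul_zero]
  · rw [if_neg h1, zero_mul]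

lemma sup_mul_sup (α β : ℕ → ℂ) {N : ℕ} (hN : 0 < N) :
    sup α N * sup β N = sup (fun m => ∑ i ∈ Finset.range (m + 1), β i * α (m - i)) N := by
  ext k
  by_cases hk : N ∣ k
  · obtain ⟨m, rfl⟩ := hk
    rw [mul_comm N m, coeff_mul_sup _ _ hN, coeff_sup_mul _ hN]
    apply Finset.sum_congr rfl
    intro i _
    rw [coeff_sup_mul _ hN]
  · rw [coeff_sup_mul_sup_of_not_dvd _ _ hk, coeff_sup, if_neg hk]

/-- `1/(1 - a z^N)` -/
noncomputable def geo (a : ℂ) (N : ℕ) : PowerSeries ℂ := sup (fun j => a ^ j) N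

lemma geo_sq (a : ℂ) {N : ℕ} (hN : 0 < N) :
    geo a N * geo a N = sup (fun j => ((j : ℂ) + 1) * a ^ j) N := by
  rw [geo, sup_mul_sup _ _ hN]
  congr 1
  funext m
  have : ∀ i ∈ Finset.range (m + 1), a ^ i * a ^ (m - i) = a ^ m := by
    intro i hi
    rw [← pow_add]
    congr 1
    have := Finset.mem_range.1 hi
    omega
  rw [Finset.sum_congr rfl this]
  simp

/-- the polynomial `1 - a z^N` -/
noncomputable def bb (a : ℂ) (N : ℕ) : Polynomial ℂ := 1 - Polynomial.C a * Polynomial.X ^ N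

lemma bb_mul_geo (a : ℂ) {N : ℕ} (hN : 0 < N) : (bb a N : PowerSeries ℂ) * geo a N = 1 := by
  ext k
  have h1 : ((bb a N : Polynomial ℂ) : PowerSeries ℂ) = 1 - PowerSeries.C a * PowerSeries.X ^ N := by
    simp [bb]
  rw [h1, sub_mul, one_mul, mul_assoc, map_sub, PowerSeries.coeff_C_mul,
    PowerSeries.coeff_X_pow_mul', geo, coeff_sup]
  by_cases hk : N ≤ k
  · have hk0 : k ≠ 0 := by omega
    rw [if_pos hk, coeff_sup, PowerSeries.coeff_one, if_neg hk0]
    by_cases hd : N ∣ k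
    · have hd' : N ∣ k - N := Nat.dvd_sub hd (dvd_refl N)
      rw [if_pos hd, if_pos hd']
      obtain ⟨m, rfl⟩ := hd
      have hm : 1 ≤ m := by
        rcases Nat.eq_zero_or_pos m with h | h
        · subst h; simp at hk; omega
        · exact h
      obtain ⟨l, rfl⟩ : ∃ l, m = l + 1 := ⟨m - 1, by omega⟩
      have h2 : N * (l + 1) - N = N * l := by rw [mul_add, mul_one]; omega
      rw [h2, Nat.mul_div_cancel_left _ hN, Nat.mul_div_cancel_left _ hN, pow_succ]
      ring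
    · have hd' : ¬ N ∣ k - N := by
        intro h
        apply hd
        have := dvd_add h (dvd_refl N)
        rwa [Nat.sub_add_cancel hk] at this
      rw [if_neg hd, if_neg hd']
      ring
  · rw [if_neg hk, PowerSeries.coeff_one]
    by_cases h0 : k = 0
    · subst h0; simp
    · rw [if_neg h0]
      have : ¬ N ∣ k := fun h => hk (Nat.le_of_dvd (Nat.pos_of_ne_zero h0) h)
      rw [if_neg this]
      simp

lemma geo_expDec {a : ℂ} {N : ℕ} (hN : 0 < N) (ha0 : a ≠ 0) (ha : ‖a‖ < 1) : ExpDec (geo a N) := by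
  have ha0' : 0 < ‖a‖ := norm_pos_iff.2 ha0
  refine ⟨1, ‖a‖ ^ ((N : ℝ)⁻¹), one_pos, by positivity, ?_, fun k => ?_⟩
  · exact Real.rpow_lt_one ha0'.le ha (by positivity)
  · rw [geo, coeff_sup]
    split_ifs with h
    · obtain ⟨m, rfl⟩ := h
      rw [Nat.mul_div_cancel_left _ hN, norm_pow, pow_mul, Real.rpow_inv_natCast_pow ha0'.le hN.ne',
        one_mul]
    · rw [norm_zero]; positivity

end Pool.Agent.R262.OPA
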